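import Pool.Agent.NUI.Bnd

open Complex Set Filter Topology Polynomial

namespace NUI

/-- range of the number of rows -/
noncomputable def NN (m : ℕ) : ℕ := ⌊(Real.log m) ^ 2⌋₊

/-- stiffness -/
noncomputable def XX (c : ℝ) (m : ℕ) : ℝ := 2 * c * Real.log m

/-- **GROWTH** (the only analytic input): for `b` in a quarter disc there is `f`, analytic in the
number of rows `z` (`m + z` rows), equal to `κ_{m+j} P_{m+j}(2 cosh b)` at integers, with Gaussian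
growth. -/
def Growth (a c R : ℝ) (κ : ℕ → ℝ) (P : ℕ → ℝ[X]) : Prop :=
  ∀ ε > 0, ∀ᶠ m : ℕ in atTop, ∀ b : ℂ, ‖b‖ ≤ R → 0 ≤ b.re → 0 ≤ b.im → ∃ f : ℂ → ℂ,
    (∀ z : ℂ, |z.re| ≤ NN m + 1 / 2 → -(Real.pi / 4 * XX c m) ≤ z.im → z.im ≤ 17 / 10 * XX c m →
      DifferentiableAt ℂ f z ∧
      ‖f z‖ ≤ Real.exp ((a + c * b.re ^ 2 + ε) * Real.log m
        + z.im ^ 2 / (2 * XX c m) - b.im * z.im)) ∧
    (∀ i ∈ Finset.range (2 * NN m + 1), f ((-(NN m : ℤ) + i : ℤ) : ℂ)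
      = κ (m - NN m + i) * aeval (2 * Complex.cosh b) (P (m - NN m + i)))

/-- weights -/
noncomputable def wt (m i : ℕ) : ℝ :=
  Real.exp (-(((-(NN m : ℤ) + i : ℤ) : ℝ)) ^ 2 / (2 * (Real.log m) ^ 2))

lemma wt_pos (m i : ℕ) : 0 < wt m i := Real.exp_pos _

/-- the positive combination -/
noncomputable def SS (κ : ℕ → ℝ) (P : ℕ → ℝ[X]) (m : ℕ) : ℝ[X] :=
  ∑ i ∈ Finset.range (2 * NN m + 1), C (wt m i * κ (m - NN m + i)) * P (m - NN m + i)

lemma SS_coeff {κ : ℕ → ℝ} {P : ℕ → ℝ[X]} (hκ : ∀ n, 0 < κ n) (hP : ∀ n i, 0 ≤ (P n).coeff i)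
    (m i : ℕ) : 0 ≤ (SS κ P m).coeff i := by
  unfold SS
  rw [Polynomial.finsetSum_coeff]
  apply Finset.sum_nonneg
  intro j _
  rw [Polynomial.coeff_C_mul]
  exact mul_nonneg (mul_nonneg (wt_pos _ _).le (hκ _).le) (hP _ _)

lemma SS_eval {κ : ℕ → ℝ} {P : ℕ → ℝ[X]} (m : ℕ) (x : ℝ) :
    (SS κ P m).eval x = ∑ i ∈ Finset.range (2 * NN m + 1),
      wt m i * κ (m - NN m + i) * (P (m - NN m + i)).eval x := by
  unfold SS
  rw [Polynomial.eval_finsetSum]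
  simp

lemma SS_aeval {κ : ℕ → ℝ} {P : ℕ → ℝ[X]} (m : ℕ) (x : ℂ) :
    aeval x (SS κ P m) = ∑ i ∈ Finset.range (2 * NN m + 1),
      (wt m i : ℂ) * (κ (m - NN m + i) * aeval x (P (m - NN m + i))) := by
  unfold SS
  rw [map_sum]
  apply Finset.sum_congr rfl
  intro i _
  rw [map_mul, Polynomial.aeval_C]
  simp
  ring

lemma aeval_conj (P : ℝ[X]) (z : ℂ) :
    aeval ((starRingEnd ℂ) z) P = (starRingEnd ℂ) (aeval z P) := by
  rw [Polynomial.aeval_eq_sum_range, Polynomial.aeval_eq_sum_range, map_sum]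
  apply Finset.sum_congr rfl
  intro i _
  simp

/-- reduction to the quarter disc -/
lemma quarter (P : ℝ[X]) (b : ℂ) :
    ‖aeval (2 * Complex.cosh b) P‖ =
      ‖aeval (2 * Complex.cosh ((|b.re| : ℝ) + (|b.im| : ℝ) * I)) P‖ := by
  have hb : b = (b.re : ℂ) + (b.im : ℂ) * I := (re_add_im b).symm
  have hcc : ∀ z : ℂ, ‖aeval (2 * Complex.cosh ((starRingEnd ℂ) z)) P‖
      = ‖aeval (2 * Complex.cosh z) P‖ := by
    intro z
    have : (2 : ℂ) * Complex.cosh ((starRingEnd ℂ) z) = (starRingEnd ℂ) (2 * Complex.cosh z) := by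
      rw [map_mul, Complex.cosh_conj, map_ofNat]
    rw [this, aeval_conj, RCLike.norm_conj]
  have hneg : ∀ z : ℂ, aeval (2 * Complex.cosh (-z)) P = aeval (2 * Complex.cosh z) P := by
    intro z; rw [Complex.cosh_neg]
  have e2 : (starRingEnd ℂ) b = (b.re : ℂ) + ((-b.im : ℝ) : ℂ) * I := by
    apply Complex.ext <;> simp
  have e3 : -(starRingEnd ℂ) b = ((-b.re : ℝ) : ℂ) + (b.im : ℂ) * I := by
    apply Complex.ext <;> simp
  have e4 : -b = ((-b.re : ℝ) : ℂ) + ((-b.im : ℝ) : ℂ) * I := by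
    apply Complex.ext <;> simp
  rcases le_total 0 b.re with h1 | h1 <;> rcases le_total 0 b.im with h2 | h2
  · rw [abs_of_nonneg h1, abs_of_nonneg h2, ← hb]
  · rw [abs_of_nonneg h1, abs_of_nonpos h2, ← e2, hcc]
  · rw [abs_of_nonpos h1, abs_of_nonneg h2, ← e3, hneg, hcc]
  · rw [abs_of_nonpos h1, abs_of_nonpos h2, ← e4, hneg]

lemma wt_ww (m i : ℕ) : (wt m i : ℂ) = ww (Real.log m) ((-(NN m : ℤ) + i : ℤ) : ℂ) := by
  rw [ww_int]
  rfl

lemma poly_absorb {C ε : ℝ} (hε : 0 < ε) :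
    ∀ᶠ m : ℕ in atTop, C * ((Real.log m) ^ 2 + 1) ≤ Real.exp (ε * Real.log m) := by
  have h1 : Tendsto (fun x : ℝ => C * (x ^ 2 + 1) / Real.exp (ε * x)) atTop (𝓝 0) := by
    have h2 : Tendsto (fun x : ℝ => x ^ 2 / Real.exp (ε * x)) atTop (𝓝 0) :=
      (isLittleO_pow_exp_pos_mul_atTop 2 hε).tendsto_div_nhds_zero
    have h3 : Tendsto (fun x : ℝ => x ^ 0 / Real.exp (ε * x)) atTop (𝓝 0) :=
      (isLittleO_pow_exp_pos_mul_atTop 0 hε).tendsto_div_nhds_zero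
    have h4 := ((h2.add h3).const_mul C)
    simp only [add_zero, mul_zero] at h4
    refine h4.congr (fun x => ?_)
    rw [pow_zero]
    ring
  have h2 : ∀ᶠ x : ℝ in atTop, C * (x ^ 2 + 1) ≤ Real.exp (ε * x) := by
    filter_upwards [h1.eventually_lt_const (by norm_num : (0 : ℝ) < 1)] with x hx
    rw [div_lt_one (Real.exp_pos _)] at hx
    exact hx.le
  exact (Real.tendsto_log_atTop.comp tendsto_natCast_atTop_atTop).eventually h2

lemma log_ge (B : ℝ) : ∀ᶠ m : ℕ in atTop, B ≤ Real.log m :=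
  (Real.tendsto_log_atTop.comp tendsto_natCast_atTop_atTop).eventually_ge_atTop B

lemma NN_le (m : ℕ) : (NN m : ℝ) ≤ (Real.log m) ^ 2 := Nat.floor_le (sq_nonneg _)

lemma NN_ge (m : ℕ) : (Real.log m) ^ 2 - 1 ≤ NN m := by
  have := Nat.lt_floor_add_one ((Real.log (m : ℝ)) ^ 2)
  unfold NN
  linarith

/-- **(CF)** sharp bound for complex `b`. -/
theorem CF {a c R : ℝ} {κ : ℕ → ℝ} {P : ℕ → ℝ[X]} (hc : 0 < c) (hR : R ≤ 17 / 10)
    (hG : Growth a c R κ P) {ε : ℝ} (hε : 0 < ε) :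
    ∀ᶠ m : ℕ in atTop, ∀ b : ℂ, ‖b‖ ≤ R → ‖aeval (2 * Complex.cosh b) (SS κ P m)‖ ≤
      Real.exp (Real.log m * (a + c * (b ^ 2).re + ε)) := by
  obtain ⟨C, hC, hEx⟩ := Ex_bound hc
  filter_upwards [hG (ε / 2) (by positivity), poly_absorb (C := C) (half_pos hε),
    log_ge 1, log_ge (2 / c)] with m hm hpoly hL1 hL2
  intro b hb
  rw [quarter]
  set b' : ℂ := (|b.re| : ℝ) + (|b.im| : ℝ) * I with hb'
  have hre : b'.re = |b.re| := by simp [hb']
  have him : b'.im = |b.im| := by simp [hb']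
  have hn : ‖b'‖ ≤ R := by
    have h1 : ‖b'‖ ^ 2 = ‖b‖ ^ 2 := by
      rw [← Complex.normSq_eq_norm_sq, ← Complex.normSq_eq_norm_sq, Complex.normSq_apply,
        Complex.normSq_apply, hre, him, abs_mul_abs_self, abs_mul_abs_self]
    have h2 : ‖b'‖ = ‖b‖ := by
      rw [← abs_of_nonneg (norm_nonneg b'), ← abs_of_nonneg (norm_nonneg b)]
      exact (sq_eq_sq_iff_abs_eq_abs _ _).mp h1
    rw [h2]; exact hb
  have hsq : (b ^ 2).re = b'.re ^ 2 - b'.im ^ 2 := by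
    rw [hre, him, sq_abs, sq_abs, sq, mul_re]; ring
  obtain ⟨f, hf1, hf2⟩ := hm b' hn (by rw [hre]; positivity) (by rw [him]; positivity)
  set L := Real.log m with hLd
  have hLp : 0 < L := by linarith
  have hXX : XX c m = 2 * c * L := rfl
  have hcL : 2 ≤ c * L := by
    have := mul_le_mul_of_nonneg_left hL2 hc.le
    rwa [mul_div_cancel₀ _ hc.ne'] at this
  have hXp : 0 < 2 * c * L := by positivity
  have hpi1 := Real.pi_gt_d2
  have hpi2 := Real.pi_lt_d2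
  have hθ0 : 0 ≤ b'.im := by rw [him]; positivity
  have hθ1 : b'.im ≤ 17 / 10 := by
    have := (Complex.abs_im_le_norm b').trans hn
    rw [abs_of_nonneg hθ0] at this
    linarith
  rw [SS_aeval]
  have hsum : ∑ i ∈ Finset.range (2 * NN m + 1),
      (wt m i : ℂ) * (κ (m - NN m + i) * aeval (2 * Complex.cosh b') (P (m - NN m + i)))
      = ∑ i ∈ Finset.range (2 * NN m + 1), ww L ((-(NN m : ℤ) + i : ℤ) : ℂ) *
        f ((-(NN m : ℤ) + i : ℤ) : ℂ) := by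
    apply Finset.sum_congr rfl
    intro i hi
    rw [hf2 i hi, wt_ww]
  rw [hsum]
  have hs1 : 1 ≤ Real.pi / 4 * (2 * c * L) := by nlinarith
  have hσ1 : (1 : ℝ) ≤ max 1 (b'.im * (2 * c * L)) := le_max_left _ _
  have hraw := CF_raw (f := f) (L := L) (X := 2 * c * L) (s := Real.pi / 4 * (2 * c * L))
    (σ := max 1 (b'.im * (2 * c * L))) (θ := b'.im) (B := (a + c * b'.re ^ 2 + ε / 2) * L)
    (NN m) hXp hLp hs1 hσ1 hθ0 (by
      intro z hz
      obtain ⟨h1, h2, h3, h4⟩ := hz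
      refine hf1 z (abs_le.mpr ⟨h1, h2⟩) h3 (h4.trans ?_)
      rw [hXX]
      apply max_le
      · nlinarith
      · exact mul_le_mul_of_nonneg_right hθ1 hXp.le)
  refine hraw.trans ?_
  have h5 := hEx L hL1 b'.im hθ0 hθ1 (NN m) (NN_le m) (NN_ge m)
  calc Real.exp ((a + c * b'.re ^ 2 + ε / 2) * L) *
      Ex L (2 * c * L) (Real.pi / 4 * (2 * c * L)) (max 1 (b'.im * (2 * c * L))) b'.im (NN m)
      ≤ Real.exp ((a + c * b'.re ^ 2 + ε / 2) * L) *
        (Real.exp (ε / 2 * L) * Real.exp (-(b'.im ^ 2 * (2 * c * L) / 2))) := by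
        apply mul_le_mul_of_nonneg_left _ (Real.exp_pos _).le
        refine h5.trans ?_
        exact mul_le_mul_of_nonneg_right hpoly (Real.exp_pos _).le
    _ = Real.exp (L * (a + c * (b ^ 2).re + ε)) := by
        rw [← Real.exp_add, ← Real.exp_add, hsq]
        congr 1
        ring

end NUI
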