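import Pool.Agent.NUI.CR
import Pool.Agent.NUF.FINU
import Pool.Agent.NUQ.DenL
import Pool.Agent.NUB.Poly

/-!
# Lower bound of the partition function of the sphere lattice from (CR)
-/

open Filter Topology Polynomial

namespace NUI

open Pool.Agent.NUF HexObs

/-- `log ((2 / 3) (2 + √2))` -/
noncomputable def lA : ℝ := Real.log (2 / 3 * (2 + Real.sqrt 2))

/-- coefficient of the square in the mean field value -/
noncomputable def qA : ℝ := 4 * lA

/-- coefficient of the linear term in the mean field value -/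
noncomputable def qB : ℝ := 2 * Real.log (2 / 3) - 2 * lA

lemma bulk_exp (m : ℕ) : bulk m = Real.exp (qA * (m : ℝ) ^ 2 + qB * m) := by
  unfold bulk qA qB lA
  have h1 : (0 : ℝ) < 2 / 3 * (2 + Real.sqrt 2) := by positivity
  have h2 : (0 : ℝ) < 2 / 3 := by norm_num
  rw [← Real.exp_log (pow_pos h1 _), ← Real.exp_log (pow_pos h2 _), ← Real.exp_add, Real.log_pow,
    Real.log_pow]
  congr 1
  rcases m with _ | k
  · simp
  · have : ((2 * (k + 1) * (2 * (k + 1) - 1) : ℕ) : ℝ) = 2 * (k + 1) * (2 * (k + 1) - 1) := by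
      have e : 2 * (k + 1) - 1 = 2 * k + 1 := by omega
      rw [e]; push_cast; ring
    rw [this]
    push_cast
    ring

/-- The value at loop weight zero. -/
noncomputable def W0 (m : ℕ) : ℝ := ‖(near_WW 0).Wd (List.replicate m 1) (List.replicate m 1)‖

lemma W0_pos (m : ℕ) : 0 < W0 m := norm_pos_iff.2 (Wd_ne m)

lemma kappa_low (ε : ℝ) (hε : 0 < ε) : ∀ᶠ m : ℕ in atTop,
    Real.exp ((5 / 24 - ε) * Real.log m) ≤ W0 m / Real.exp (qA * (m : ℝ) ^ 2 + qB * m) := by
  obtain ⟨c, hc, h⟩ := Pool.Agent.NUQ.denLow (ε / 2) (by positivity)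
  have hl : Tendsto (fun m : ℕ => Real.log m) atTop atTop :=
    Real.tendsto_log_atTop.comp tendsto_natCast_atTop_atTop
  filter_upwards [eventually_ge_atTop 1, hl.eventually_ge_atTop (-Real.log c / (ε / 2))] with m hm hL
  have hm0 : (0 : ℝ) < m := by exact_mod_cast hm
  rw [← bulk_exp, le_div_iff₀ (bulk_pos m)]
  refine le_trans ?_ (h m hm)
  apply mul_le_mul_of_nonneg_right _ (bulk_pos m).le
  rw [Real.rpow_def_of_pos hm0]
  rw [div_le_iff₀ (by positivity)] at hL
  calc Real.exp ((5 / 24 - ε) * Real.log m)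
      ≤ Real.exp (Real.log c + Real.log m * (5 / 24 - ε / 2)) := by
        apply Real.exp_le_exp.2
        nlinarith
    _ = c * Real.exp (Real.log m * (5 / 24 - ε / 2)) := by
        rw [Real.exp_add, Real.exp_log hc]

/-- **TARGET-B from (CR).** -/
theorem zLow_of_CR {P : ℕ → ℝ[X]} (hP : ∀ n i, 0 ≤ (P n).coeff i)
    (hZ : ∀ (n' : ℂ) (m : ℕ), ZZ n' m = aeval n' (P m))
    (h : CR (3 / 8) (2 / (3 * Real.pi ^ 2)) (17 / 10) qA qB W0 P) : ZLow := by
  have hc : 0 < 2 / (3 * Real.pi ^ 2) := by positivity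
  have hcpi : 2 / (3 * Real.pi ^ 2) * (Real.pi ^ 2 / 4) = 1 / 6 := by
    field_simp; norm_num
  have hP0 : ∀ n, (P n).eval 0 = 1 := by
    intro n
    have h1 := hZ 0 n
    have h2 : ZZ 0 n = 1 := div_self (Wd_ne n)
    rw [h2] at h1
    have h3 : aeval (0 : ℂ) (P n) = (((P n).eval 0 : ℝ) : ℂ) := by
      simpa using (Polynomial.aeval_algebraMap_apply ℂ (0 : ℝ) (P n))
    rw [h3] at h1
    exact_mod_cast h1.symm
  have hP2 : ∀ n, ‖ZZ 2 n‖ = (P n).eval 2 := by
    intro n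
    rw [hZ]
    have h3 : aeval (2 : ℂ) (P n) = (((P n).eval 2 : ℝ) : ℂ) := by
      simpa using (Polynomial.aeval_algebraMap_apply ℂ (2 : ℝ) (P n))
    rw [h3, Complex.norm_real, Real.norm_eq_abs, abs_of_nonneg]
    rw [Polynomial.eval_eq_sum_range]
    exact Finset.sum_nonneg fun i _ => mul_nonneg (hP _ _) (by positivity)
  have hP1 : ∀ n, 1 ≤ (P n).eval 2 := by
    intro n
    rw [← hP0 n, Polynomial.eval_eq_sum_range, Polynomial.eval_eq_sum_range]
    apply Finset.sum_le_sum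
    intro i _
    apply mul_le_mul_of_nonneg_left _ (hP _ _)
    rcases i with _ | i
    · simp
    · rw [zero_pow (by omega)]; positivity
  have hlow := lower_half (κ := fun n => W0 n / Real.exp (qA * (n : ℝ) ^ 2 + qB * n)) hc
    (R := 17 / 10) (by have := Real.pi_lt_d2; linarith) le_rfl hP hP0
    (fun n => div_pos (W0_pos n) (Real.exp_pos _))
    (fun ε hε => by
      have := kappa_low ε hε
      have e : (3 / 8 : ℝ) - 2 / (3 * Real.pi ^ 2) * (Real.pi ^ 2 / 4) - ε = 5 / 24 - ε := by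
        rw [hcpi]; ring
      simpa only [e] using this) (growth_of_CR h)
  intro ε hε
  obtain ⟨m0, hm0⟩ := eventually_atTop.1 ((hlow ε hε).and (NN_lt_self))
  obtain ⟨c, hc1⟩ : ∃ c : ℝ, c = min 1 ((max m0 1 : ℕ) : ℝ)⁻¹ := ⟨_, rfl⟩
  have hM : (0 : ℝ) < ((max m0 1 : ℕ) : ℝ) := by
    exact_mod_cast lt_of_lt_of_le one_pos (le_max_right m0 1)
  refine ⟨c, 1, by rw [hc1]; exact lt_min one_pos (inv_pos.2 hM), le_rfl, fun m hm => ?_⟩
  have hmp : (0 : ℝ) < m := by exact_mod_cast hm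
  have hm1 : (1 : ℝ) ≤ m := by exact_mod_cast hm
  rcases Nat.lt_or_ge m m0 with hlt | hge
  · refine ⟨1, le_rfl, by omega, ?_⟩
    rw [hP2]
    refine le_trans ?_ (hP1 _)
    have h1 : (m : ℝ) ^ (1 / 6 - ε) ≤ (max m0 1 : ℕ) := by
      calc (m : ℝ) ^ (1 / 6 - ε) ≤ (m : ℝ) ^ (1 : ℝ) :=
            Real.rpow_le_rpow_of_exponent_le hm1 (by linarith)
        _ = m := Real.rpow_one _
        _ ≤ (max m0 1 : ℕ) := by exact_mod_cast hlt.le.trans (le_max_left _ _)
    calc c * (m : ℝ) ^ (1 / 6 - ε) ≤ ((max m0 1 : ℕ) : ℝ)⁻¹ * (max m0 1 : ℕ) := by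
          apply mul_le_mul _ h1 (by positivity) (by positivity)
          rw [hc1]; exact min_le_right _ _
      _ = 1 := inv_mul_cancel₀ hM.ne'
  · obtain ⟨⟨T, h1, h2, h3⟩, h4⟩ := hm0 m hge
    refine ⟨T, by omega, by omega, ?_⟩
    rw [hP2]
    refine le_trans ?_ h3
    rw [hcpi]
    have hc2 : c ≤ 1 := by rw [hc1]; exact min_le_left _ _
    calc c * (m : ℝ) ^ (1 / 6 - ε) ≤ 1 * (m : ℝ) ^ (1 / 6 - ε) :=
          mul_le_mul_of_nonneg_right hc2 (by positivity)
      _ = _ := by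
          rw [one_mul, Real.rpow_def_of_pos hmp]
          congr 1
          ring

/-- **TARGET-A is contained in (CR)**: `b = 0`, `s = m`. -/
theorem numUp_of_CR {P : ℕ → ℝ[X]}
    (hZ : ∀ (n' : ℂ) (m : ℕ), ZZ n' m = aeval n' (P m))
    (h : CR (3 / 8) (2 / (3 * Real.pi ^ 2)) (17 / 10) qA qB W0 P) : NumUp := by
  intro ε hε
  have hc : 0 < 2 / (3 * Real.pi ^ 2) := by positivity
  obtain ⟨m0, hm0⟩ := eventually_atTop.1 (h ε hε)
  -- large `m`
  have hlarge : ∀ m : ℕ, m0 ≤ m → 1 ≤ m →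
      ‖(near_WW 2).Wd (List.replicate m 1) (List.replicate m 1)‖ ≤ (m : ℝ) ^ (3 / 8 + ε) * bulk m := by
    intro m hm hm1
    have hmp : (0 : ℝ) < m := by exact_mod_cast hm1
    have hL : 0 ≤ Real.log m := Real.log_nonneg (by exact_mod_cast hm1)
    have hX : 0 ≤ XX (2 / (3 * Real.pi ^ 2)) m := by unfold XX; positivity
    obtain ⟨N, Z, -, hZe, hZb⟩ := hm0 m hm
    have h1 := hZe m (by omega) (by omega) 0
    have h2 := hZb 0 le_rfl (by norm_num) (m : ℂ) (by simp; positivity) (by simp; positivity)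
      (by simp; positivity)
    simp only [zero_mul, Complex.exp_zero, one_mul, Real.exp_zero, Complex.natCast_re,
      Complex.natCast_im, Complex.cosh_zero, mul_one] at h1 h2
    have h3 : ‖(near_WW 2).Wd (List.replicate m 1) (List.replicate m 1)‖
        = W0 m * ‖aeval (2 : ℂ) (P m)‖ := by
      rw [← hZ, ZZ, norm_div, W0, mul_div_cancel₀ _ (norm_ne_zero_iff.2 (Wd_ne m))]
    have h4 : W0 m * ‖aeval (2 : ℂ) (P m)‖ = ‖∑ n ∈ Finset.range N, Z n m‖ := by
      rw [h1, norm_mul, Complex.norm_real, Real.norm_eq_abs, abs_of_pos (W0_pos m)]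
    rw [h3, h4]
    refine (norm_sum_le _ _).trans (h2.trans (le_of_eq ?_))
    rw [← bulk_exp, Real.rpow_def_of_pos hmp]
    have e1 : (3 / 8 + 2 / (3 * Real.pi ^ 2) * 0 ^ 2 + ε) * Real.log m = Real.log m * (3 / 8 + ε) := by
      ring
    rw [e1]
    simp only [ne_eq, OfNat.ofNat_ne_zero, not_false_eq_true, zero_pow, zero_mul, neg_zero,
      Real.exp_zero, mul_one]
    ring
  -- a constant for small `m`
  refine ⟨1 + ∑ m ∈ Finset.range m0, ‖(near_WW 2).Wd (List.replicate m 1) (List.replicate m 1)‖ / bulk m,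
    fun m hm => ?_⟩
  have hb := bulk_pos m
  have hm1 : (1 : ℝ) ≤ m := by exact_mod_cast hm
  have hpow : (1 : ℝ) ≤ (m : ℝ) ^ (3 / 8 + ε) := Real.one_le_rpow hm1 (by positivity)
  have hsum : 0 ≤ ∑ m ∈ Finset.range m0,
      ‖(near_WW 2).Wd (List.replicate m 1) (List.replicate m 1)‖ / bulk m :=
    Finset.sum_nonneg fun i _ => div_nonneg (norm_nonneg _) (bulk_pos i).le
  rcases Nat.lt_or_ge m m0 with hlt | hge
  · have h1 : ‖(near_WW 2).Wd (List.replicate m 1) (List.replicate m 1)‖ / bulk m ≤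
        ∑ m ∈ Finset.range m0, ‖(near_WW 2).Wd (List.replicate m 1) (List.replicate m 1)‖ / bulk m :=
      Finset.single_le_sum
        (f := fun m => ‖(near_WW 2).Wd (List.replicate m 1) (List.replicate m 1)‖ / bulk m)
        (fun i _ => div_nonneg (norm_nonneg _) (bulk_pos i).le) (Finset.mem_range.2 hlt)
    rw [div_le_iff₀ hb] at h1
    refine h1.trans ?_
    apply mul_le_mul_of_nonneg_right _ hb.le
    nlinarith
  · refine (hlarge m hge hm).trans ?_
    apply mul_le_mul_of_nonneg_right _ hb.le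
    nlinarith

/-- The polynomial `Z_m(n') / Z_m(0)`. -/
noncomputable def ZP (m : ℕ) : ℝ[X] := (Pool.Agent.NUB.ZZ_poly m).choose

lemma ZP_nonneg (m i : ℕ) : 0 ≤ (ZP m).coeff i := (Pool.Agent.NUB.ZZ_poly m).choose_spec.1 i

lemma ZP_eq (n' : ℂ) (m : ℕ) : ZZ n' m = aeval n' (ZP m) :=
  (Pool.Agent.NUB.ZZ_poly m).choose_spec.2.2 n'

/-- The common target of A and B. -/
def Target : Prop := CR (3 / 8) (2 / (3 * Real.pi ^ 2)) (17 / 10) qA qB W0 ZP

theorem zLow_of_target (h : Target) : ZLow := zLow_of_CR ZP_nonneg ZP_eq h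

theorem numUp_of_target (h : Target) : NumUp := numUp_of_CR ZP_eq h

theorem nfLow_of_target (hW : WindUp) (h : Target) : NFLow := nfLow_of hW (zLow_of_target h)

end NUI
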