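import Pool.Agent.NUI.Circ

open Complex Set Filter Topology Polynomial

namespace NUI

lemma cosh_gt_one {x : ℝ} (hx : x ≠ 0) : 1 < Real.cosh x := by
  have := Real.one_lt_cosh (x := x)
  exact this.mpr hx

/-- small vertical strips: `|P(2 cosh b)| <= P(2)^(1-t) P(2 cosh R)^t`, `cosh r = (cosh R)^t` -/
lemma strip_le {P : ℝ[X]} (hP : ∀ i, 0 ≤ P.coeff i) {R r0 t : ℝ} (hr0 : 0 ≤ r0)
    (ht : 0 ≤ t) (ht1 : t ≤ 1) (hc : Real.cosh r0 ≤ Real.cosh R ^ t) {b : ℂ} (hb : |b.re| ≤ r0) :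
    ‖aeval (2 * Complex.cosh b) P‖ ≤ (P.eval 2) ^ (1 - t) * (P.eval (2 * Real.cosh R)) ^ t := by
  have hcR : 0 < Real.cosh R := Real.cosh_pos R
  refine (aeval_norm_le hP _).trans ?_
  refine (eval_pos_le hP (norm_nonneg _) (cosh_norm_le b)).trans ?_
  have h1 : Real.cosh |b.re| ≤ Real.cosh r0 := by
    rw [Real.cosh_le_cosh, abs_abs, abs_of_nonneg hr0]
    exact hb
  have h2 : 2 * Real.cosh |b.re| ≤ (2 : ℝ) ^ (1 - t) * (2 * Real.cosh R) ^ t := by
    rw [Real.mul_rpow (by norm_num) hcR.le, ← mul_assoc, ← Real.rpow_add (by norm_num)]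
    have : (1 - t + t) = 1 := by ring
    rw [this, Real.rpow_one]
    linarith [h1.trans hc]
  refine (eval_pos_le hP (by positivity) h2).trans ?_
  exact log_convex hP (by norm_num) (by positivity) ht ht1

/-- **The chain.** A polynomial with coefficients `>= 0`, `|P(2 cosh b)| <= e^{L(a + c Re b^2 + ε)}`
in the disc `|b| <= R` (`R > π/2`), and `P(0) >= e^{L(a - c π²/4 - ε)}`, has
`P(2) >= e^{L(a - δ)}`. -/
theorem chain {c R δ : ℝ} (hc : 0 < c) (hR : Real.pi / 2 < R) (hδ : 0 < δ) :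
    ∃ ε > 0, ∀ a : ℝ, ∀ L > 0, ∀ P : ℝ[X], (∀ i, 0 ≤ P.coeff i) →
      (∀ b : ℂ, ‖b‖ ≤ R → ‖aeval (2 * Complex.cosh b) P‖ ≤
        Real.exp (L * (a + c * (b ^ 2).re + ε))) →
      Real.exp (L * (a - c * (Real.pi ^ 2 / 4) - ε)) ≤ P.eval 0 →
      Real.exp (L * (a - δ)) ≤ P.eval 2 := by
  have hpi := Real.pi_gt_three
  have hRp : 0 < R := by linarith
  -- choice of t, r0
  obtain ⟨t, ht0, ht1, htδ⟩ : ∃ t : ℝ, 0 < t ∧ t ≤ 1 ∧ t * (δ + c * R ^ 2 + 1) ≤ δ / 4 := by
    refine ⟨min 1 (δ / 4 / (δ + c * R ^ 2 + 1)), ?_, min_le_left _ _, ?_⟩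
    · apply lt_min (by norm_num)
      positivity
    · calc min 1 (δ / 4 / (δ + c * R ^ 2 + 1)) * (δ + c * R ^ 2 + 1)
          ≤ (δ / 4 / (δ + c * R ^ 2 + 1)) * (δ + c * R ^ 2 + 1) := by
            apply mul_le_mul_of_nonneg_right (min_le_right _ _)
            positivity
        _ = δ / 4 := by field_simp
  have hch : 1 < Real.cosh R := cosh_gt_one hRp.ne'
  have hcht : 1 < Real.cosh R ^ t := Real.one_lt_rpow hch ht0
  obtain ⟨r0, hr0, hr0R, hr0c, hr0δ⟩ : ∃ r0 : ℝ, 0 < r0 ∧ r0 < Real.pi / 2 ∧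
      Real.cosh r0 ≤ Real.cosh R ^ t ∧ c * r0 ^ 2 ≤ δ / 4 := by
    have h1 : ∀ᶠ r in 𝓝 (0 : ℝ), Real.cosh r < Real.cosh R ^ t := by
      have : Tendsto Real.cosh (𝓝 0) (𝓝 (Real.cosh 0)) := Real.continuous_cosh.continuousAt
      rw [Real.cosh_zero] at this
      exact this.eventually_lt_const hcht
    have h2 : ∀ᶠ r in 𝓝 (0 : ℝ), c * r ^ 2 < δ / 4 := by
      have : Tendsto (fun r : ℝ => c * r ^ 2) (𝓝 0) (𝓝 (c * 0 ^ 2)) :=
        (by fun_prop : Continuous (fun r : ℝ => c * r ^ 2)).continuousAt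
      rw [show c * (0 : ℝ) ^ 2 = 0 by ring] at this
      exact this.eventually_lt_const (by positivity)
    have h3 : ∀ᶠ r in 𝓝 (0 : ℝ), r < Real.pi / 2 := eventually_lt_nhds (by positivity)
    have h4 := (h1.and (h2.and h3)).filter_mono (nhdsWithin_le_nhds (s := Ioi 0))
    obtain ⟨r, ⟨ha, hb, hc'⟩, hr⟩ := (h4.and self_mem_nhdsWithin).exists
    exact ⟨r, hr, hc', ha.le, hb.le⟩
  set τ := (Real.log (Real.pi / 2) - Real.log r0) / (Real.log R - Real.log r0) with hτ
  have hl1 : Real.log r0 < Real.log (Real.pi / 2) := Real.log_lt_log hr0 hr0R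
  have hl2 : Real.log (Real.pi / 2) < Real.log R := Real.log_lt_log (by positivity) hR
  have hτ0 : 0 < τ := div_pos (by linarith) (by linarith)
  have hτ1 : τ < 1 := by
    rw [hτ, div_lt_one (by linarith)]
    linarith
  set ε := min 1 ((1 - τ) * δ / 8) with hε
  have hεp : 0 < ε := lt_min one_pos (by
    have : 0 < 1 - τ := by linarith
    positivity)
  have hε1 : ε ≤ 1 := min_le_left _ _
  have hε2 : ε ≤ (1 - τ) * δ / 8 := min_le_right _ _
  refine ⟨ε, hεp, ?_⟩
  intro a L hL P hP hup hlow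
  by_contra hcon
  push Not at hcon
  -- bound at 2 cosh R
  have hbR : P.eval (2 * Real.cosh R) ≤ Real.exp (L * (a + c * R ^ 2 + ε)) := by
    have h1 := hup (R : ℂ) (by rw [norm_real, Real.norm_of_nonneg hRp.le])
    have h2 : aeval (2 * Complex.cosh (R : ℂ)) P = ((P.eval (2 * Real.cosh R) : ℝ) : ℂ) := by
      rw [← Complex.ofReal_cosh]
      have : (2 : ℂ) * ((Real.cosh R : ℝ) : ℂ) = ((2 * Real.cosh R : ℝ) : ℂ) := by push_cast; ring
      rw [this]
      simpa using (Polynomial.aeval_algebraMap_apply ℂ (2 * Real.cosh R) P)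
    rw [h2, norm_real, Real.norm_of_nonneg (eval_nonneg' hP (by positivity))] at h1
    have h3 : (((R : ℂ)) ^ 2).re = R ^ 2 := by
      rw [← ofReal_pow, ofReal_re]
    rwa [h3] at h1
  have hP2 : 0 ≤ P.eval 2 := eval_nonneg' hP (by norm_num)
  have hPR : 0 ≤ P.eval (2 * Real.cosh R) := eval_nonneg' hP (by positivity)
  -- the function g
  set g : ℂ → ℂ := fun b => aeval (2 * Complex.cosh b) P * exp (-(L * (a + c * b ^ 2))) with hg
  have hgd : Differentiable ℂ g := by
    have h1 : Differentiable ℂ (fun b : ℂ => aeval (2 * Complex.cosh b) P) := by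
      have h2 : (fun b : ℂ => aeval (2 * Complex.cosh b) P)
          = (fun x : ℂ => (P.map (algebraMap ℝ ℂ)).eval x) ∘ (fun b => 2 * Complex.cosh b) := by
        funext b
        simp [Polynomial.aeval_def, Polynomial.eval_map]
      rw [h2]
      exact (Polynomial.differentiable _).comp (Complex.differentiable_cosh.const_mul 2)
    apply h1.mul
    fun_prop
  have hgn : ∀ b : ℂ, ‖g b‖ = ‖aeval (2 * Complex.cosh b) P‖ *
      Real.exp (-(L * (a + c * (b ^ 2).re))) := by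
    intro b
    rw [hg]
    simp only [norm_mul, norm_exp]
    congr 2
    simp
  have hA : ∀ b : ℂ, ‖b‖ = r0 → ‖g b‖ ≤ Real.exp (L * (-(δ / 2))) := by
    intro b hb
    rw [hgn]
    have hbre : |b.re| ≤ r0 := hb ▸ Complex.abs_re_le_norm b
    have h1 := strip_le hP hr0.le ht0.le ht1 hr0c hbre
    have h2 : (P.eval 2) ^ (1 - t) ≤ Real.exp (L * (a - δ)) ^ (1 - t) :=
      Real.rpow_le_rpow hP2 hcon.le (by linarith)
    have h3 : (P.eval (2 * Real.cosh R)) ^ t ≤ Real.exp (L * (a + c * R ^ 2 + ε)) ^ t :=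
      Real.rpow_le_rpow hPR hbR ht0.le
    have h4 : -r0 ^ 2 ≤ (b ^ 2).re := by
      have h5 : |(b ^ 2).re| ≤ ‖b ^ 2‖ := Complex.abs_re_le_norm _
      rw [norm_pow, hb] at h5
      exact (abs_le.mp h5).1
    calc ‖aeval (2 * Complex.cosh b) P‖ * Real.exp (-(L * (a + c * (b ^ 2).re)))
        ≤ (Real.exp (L * (a - δ)) ^ (1 - t) * Real.exp (L * (a + c * R ^ 2 + ε)) ^ t) *
          Real.exp (-(L * (a + c * (b ^ 2).re))) := by
          apply mul_le_mul_of_nonneg_right _ (Real.exp_pos _).le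
          exact h1.trans (mul_le_mul h2 h3 (by positivity) (by positivity))
      _ = Real.exp (L * (a - δ) * (1 - t) + L * (a + c * R ^ 2 + ε) * t
            - L * (a + c * (b ^ 2).re)) := by
          rw [← Real.exp_mul, ← Real.exp_mul, ← Real.exp_add, ← Real.exp_add]
          congr 1
      _ ≤ Real.exp (L * (-(δ / 2))) := by
          apply Real.exp_le_exp.mpr
          have h6 : L * (a - δ) * (1 - t) + L * (a + c * R ^ 2 + ε) * t
            - L * (a + c * (b ^ 2).re) = L * (-δ + t * (δ + c * R ^ 2 + ε) - c * (b ^ 2).re) := by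
            ring
          rw [h6]
          apply mul_le_mul_of_nonneg_left _ hL.le
          have h7 : t * (δ + c * R ^ 2 + ε) ≤ t * (δ + c * R ^ 2 + 1) := by
            apply mul_le_mul_of_nonneg_left _ ht0.le
            linarith
          have h8 : -(c * (b ^ 2).re) ≤ c * r0 ^ 2 := by
            have := mul_le_mul_of_nonneg_left h4 hc.le
            linarith
          linarith
  have hB : ∀ b : ℂ, ‖b‖ = R → ‖g b‖ ≤ Real.exp (L * ε) := by
    intro b hb
    rw [hgn]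
    calc _ ≤ Real.exp (L * (a + c * (b ^ 2).re + ε)) * Real.exp (-(L * (a + c * (b ^ 2).re))) := by
          apply mul_le_mul_of_nonneg_right (hup b hb.le) (Real.exp_pos _).le
      _ = Real.exp (L * ε) := by
          rw [← Real.exp_add]; congr 1; ring
  set z : ℂ := (Real.pi / 2 : ℝ) * I with hz
  have hzn : ‖z‖ = Real.pi / 2 := by
    rw [hz, norm_mul, norm_I, mul_one, norm_real, Real.norm_of_nonneg (by positivity)]
  have h3c := three_circles hgd hr0 (hr0R.trans hR) hA hB (z := z) (by rw [hzn]; exact hr0R.le)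
    (by rw [hzn]; exact hR.le)
  rw [hzn, ← hτ] at h3c
  have hgz : Real.exp (-(L * ε)) ≤ ‖g z‖ := by
    rw [hgn]
    have hcz : Complex.cosh z = 0 := by
      rw [hz, Complex.cosh_mul_I]
      push_cast
      exact Complex.cos_pi_div_two
    have hz2 : (z ^ 2).re = -(Real.pi ^ 2 / 4) := by
      rw [hz, mul_pow, I_sq, ← ofReal_pow, mul_neg_one, neg_re, ofReal_re]
      ring
    rw [hcz, mul_zero, hz2]
    have h0 : aeval (0 : ℂ) P = ((P.eval 0 : ℝ) : ℂ) := by
      simpa using (Polynomial.aeval_algebraMap_apply ℂ (0 : ℝ) P)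
    rw [h0, norm_real, Real.norm_of_nonneg (eval_nonneg' hP le_rfl)]
    calc Real.exp (-(L * ε)) = Real.exp (L * (a - c * (Real.pi ^ 2 / 4) - ε)) *
          Real.exp (-(L * (a + c * (-(Real.pi ^ 2 / 4))))) := by
          rw [← Real.exp_add]; congr 1; ring
      _ ≤ _ := mul_le_mul_of_nonneg_right hlow (Real.exp_pos _).le
  have hfin := hgz.trans h3c
  rw [← Real.exp_mul, ← Real.exp_mul, ← Real.exp_add, Real.exp_le_exp] at hfin
  have h9 : L * (-(δ / 2)) * (1 - τ) + L * ε * τ + L * ε < 0 := by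
    have : L * (-(δ / 2)) * (1 - τ) + L * ε * τ + L * ε
        = L * (-(δ / 2) * (1 - τ) + ε * τ + ε) := by ring
    rw [this]
    apply mul_neg_of_pos_of_neg hL
    have h10 : ε * τ ≤ ε := by
      have := mul_le_mul_of_nonneg_left hτ1.le hεp.le
      linarith
    have h11 : 0 < (1 - τ) * δ := mul_pos (by linarith) hδ
    linarith
  linarith

end NUI
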