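import Pool.Agent.NUI.Sum
import Pool.Agent.NUI.Chain

open Complex Set Filter Topology Polynomial

namespace NUI

/-- Gaussian weight -/
noncomputable def ww (L : ℝ) (z : ℂ) : ℂ := exp (-(z ^ 2) / (2 * (L : ℂ) ^ 2))

lemma ww_diff (L : ℝ) : Differentiable ℂ (ww L) := by
  unfold ww
  fun_prop

lemma ww_norm (L x y : ℝ) : ‖ww L (x + y * I)‖ = Real.exp (-(x ^ 2 - y ^ 2) / (2 * L ^ 2)) := by
  unfold ww
  rw [norm_exp]
  congr 1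
  have : (-((x : ℂ) + y * I) ^ 2) / (2 * (L : ℂ) ^ 2)
      = ((-(x ^ 2 - y ^ 2) / (2 * L ^ 2) : ℝ) : ℂ) + ((-(2 * x * y) / (2 * L ^ 2) : ℝ) : ℂ) * I := by
    push_cast
    have h : ((x : ℂ) + y * I) ^ 2 = x ^ 2 - y ^ 2 + 2 * x * y * I := by
      linear_combination (y ^ 2 : ℂ) * I_sq
    rw [h]
    ring
  rw [this]
  simp only [add_re, ofReal_re, mul_re, I_re, I_im, ofReal_im]
  ring

lemma ww_int (L : ℝ) (j : ℤ) : ww L (j : ℂ) = (Real.exp (-(j : ℝ) ^ 2 / (2 * L ^ 2)) : ℂ) := by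
  unfold ww
  push_cast
  rfl

/-- the total error expression -/
noncomputable def Ex (L X s σ θ : ℝ) (N : ℕ) : ℝ :=
  (2 * N + 1) * (2 * Real.exp (-(2 * Real.pi * s)) *
      Real.exp (s ^ 2 / (2 * L ^ 2) + s ^ 2 / (2 * X) + θ * s) +
    2 * Real.exp (σ ^ 2 / (2 * L ^ 2) + σ ^ 2 / (2 * X) - θ * σ)) +
  2 * (s + σ) * Real.exp (-((N : ℝ) + 1 / 2) ^ 2 / (2 * L ^ 2) + (s + σ) ^ 2 / (2 * L ^ 2)
    + (s + σ) ^ 2 / (2 * X) + θ * s)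

theorem CF_raw {f : ℂ → ℂ} {L X s σ θ B : ℝ} (N : ℕ) (hX : 0 < X) (hL : 0 < L)
    (hs : 1 ≤ s) (hσ : 1 ≤ σ) (hθ : 0 ≤ θ)
    (h : ∀ z ∈ Rc (-(N + 1 / 2)) (N + 1 / 2) (-s) σ, DifferentiableAt ℂ f z ∧
      ‖f z‖ ≤ Real.exp (B + z.im ^ 2 / (2 * X) - θ * z.im)) :
    ‖∑ i ∈ Finset.range (2 * N + 1), ww L ((-(N : ℤ) + i : ℤ) : ℂ) * f ((-(N : ℤ) + i : ℤ) : ℂ)‖
      ≤ Real.exp B * Ex L X s σ θ N := by
  have hN : (0 : ℝ) ≤ N := Nat.cast_nonneg N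
  have hL2 : 0 < 2 * L ^ 2 := by positivity
  have h1 := sum_bound (f := fun z => ww L z * f z) N hs hσ
    (fun z hz => (ww_diff L z).mul (h z hz).1)
    (Bb := Real.exp (s ^ 2 / (2 * L ^ 2)) * Real.exp (B + s ^ 2 / (2 * X) + θ * s))
    (Bt := Real.exp (σ ^ 2 / (2 * L ^ 2)) * Real.exp (B + σ ^ 2 / (2 * X) - θ * σ))
    (Bs := Real.exp (-((N : ℝ) + 1 / 2) ^ 2 / (2 * L ^ 2) + (s + σ) ^ 2 / (2 * L ^ 2)) *
      Real.exp (B + (s + σ) ^ 2 / (2 * X) + θ * s)) ?_ ?_ ?_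
  · refine h1.trans (le_of_eq ?_)
    unfold Ex
    have e1 : ∀ u v w : ℝ, Real.exp u * Real.exp (B + v + w) =
        Real.exp B * Real.exp (u + v + w) := by
      intro u v w
      rw [← Real.exp_add, ← Real.exp_add]; congr 1; ring
    have e2 : ∀ u v w : ℝ, Real.exp u * Real.exp (B + v - w) =
        Real.exp B * Real.exp (u + v - w) := by
      intro u v w
      rw [← Real.exp_add, ← Real.exp_add]; congr 1; ring
    rw [e1, e1, e2]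
    ring
  · intro x hx
    have hz : ((x : ℂ) + (-s : ℝ) * I) ∈ Rc (-(N + 1 / 2)) (N + 1 / 2) (-s) σ := by
      rw [abs_le] at hx
      refine ⟨?_, ?_, ?_, ?_⟩ <;> simp <;> linarith [hx.1, hx.2]
    rw [norm_mul, ww_norm]
    apply mul_le_mul _ _ (norm_nonneg _) (Real.exp_pos _).le
    · apply Real.exp_le_exp.mpr
      apply div_le_div_of_nonneg_right _ hL2.le
      nlinarith [sq_nonneg x]
    · refine (h _ hz).2.trans (le_of_eq ?_)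
      congr 1
      simp
  · intro x hx
    have hz : ((x : ℂ) + (σ : ℝ) * I) ∈ Rc (-(N + 1 / 2)) (N + 1 / 2) (-s) σ := by
      rw [abs_le] at hx
      refine ⟨?_, ?_, ?_, ?_⟩ <;> simp <;> linarith [hx.1, hx.2]
    rw [norm_mul, ww_norm]
    apply mul_le_mul _ _ (norm_nonneg _) (Real.exp_pos _).le
    · apply Real.exp_le_exp.mpr
      apply div_le_div_of_nonneg_right _ hL2.le
      nlinarith [sq_nonneg x]
    · refine (h _ hz).2.trans (le_of_eq ?_)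
      congr 1
      simp
  · intro e he y hy1 hy2
    have hz : (((e * (N + 1 / 2) : ℝ) : ℂ) + (y : ℝ) * I) ∈ Rc (-(N + 1 / 2)) (N + 1 / 2) (-s) σ := by
      rcases he with he | he <;> subst he
      · refine ⟨?_, ?_, ?_, ?_⟩ <;> simp <;> linarith
      · refine ⟨?_, ?_, ?_, ?_⟩ <;> simp <;> linarith
    have hy3 : y ^ 2 ≤ (s + σ) ^ 2 := by
      apply sq_le_sq'
      · linarith
      · linarith
    have he2 : e ^ 2 = 1 := by rcases he with he | he <;> subst he <;> norm_num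
    rw [norm_mul, ww_norm]
    apply mul_le_mul _ _ (norm_nonneg _) (Real.exp_pos _).le
    · apply Real.exp_le_exp.mpr
      rw [← add_div]
      apply div_le_div_of_nonneg_right _ hL2.le
      have : (e * ((N : ℝ) + 1 / 2)) ^ 2 = ((N : ℝ) + 1 / 2) ^ 2 := by rw [mul_pow, he2, one_mul]
      linarith
    · refine (h _ hz).2.trans ?_
      apply Real.exp_le_exp.mpr
      have him : (((e * (N + 1 / 2) : ℝ) : ℂ) + (y : ℝ) * I).im = y := by simp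
      rw [him]
      have h5 : y ^ 2 / (2 * X) ≤ (s + σ) ^ 2 / (2 * X) :=
        div_le_div_of_nonneg_right hy3 (by positivity)
      have h6 : -(θ * y) ≤ θ * s := by nlinarith
      linarith

lemma E1_le {X θ Q q1 : ℝ} (hX : 0 < X) (hθ0 : 0 ≤ θ) (hθ1 : θ ≤ 17 / 10) (hq : q1 ≤ Q) :
    -(2 * Real.pi * (Real.pi / 4 * X)) + (q1 + (Real.pi / 4 * X) ^ 2 / (2 * X) +
      θ * (Real.pi / 4 * X)) ≤ Q - θ ^ 2 * X / 2 := by
  have hpi1 := Real.pi_gt_d2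
  have hpi2 := Real.pi_lt_d2
  have h1 : (Real.pi / 4 * X) ^ 2 / (2 * X) = Real.pi ^ 2 / 32 * X := by
    rw [mul_pow, div_pow, div_eq_iff (by positivity)]
    ring
  have h3 : -(15 / 32) * Real.pi ^ 2 + θ * Real.pi / 4 + θ ^ 2 / 2 ≤ 0 := by
    have h4 : θ * Real.pi ≤ 5.36 := by
      have h7 : θ * Real.pi ≤ (17 / 10) * 3.15 :=
        mul_le_mul hθ1 hpi2.le (by positivity) (by norm_num)
      have h8 : (17 / 10 : ℝ) * 3.15 ≤ 5.36 := by norm_num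
      exact h7.trans h8
    have h5 : θ ^ 2 ≤ 2.9 := by
      have h7 : θ ^ 2 ≤ (17 / 10) ^ 2 := pow_le_pow_left₀ hθ0 hθ1 2
      have h8 : ((17 : ℝ) / 10) ^ 2 ≤ 2.9 := by norm_num
      exact h7.trans h8
    have h6 : (9.8 : ℝ) ≤ Real.pi ^ 2 := by
      have h7 : (3.14 : ℝ) ^ 2 ≤ Real.pi ^ 2 := pow_le_pow_left₀ (by norm_num) hpi1.le 2
      have h8 : (9.8 : ℝ) ≤ (3.14 : ℝ) ^ 2 := by norm_num
      exact h8.trans h7
    have h9 : -(15 / 32) * Real.pi ^ 2 ≤ -(15 / 32) * 9.8 := by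
      have := mul_le_mul_of_nonneg_left h6 (by norm_num : (0 : ℝ) ≤ 15 / 32)
      linarith
    have h10 : -(15 / 32) * (9.8 : ℝ) + 5.36 / 4 + 2.9 / 2 ≤ 0 := by norm_num
    linarith
  have h4 : X * (-(15 / 32) * Real.pi ^ 2 + θ * Real.pi / 4 + θ ^ 2 / 2) ≤ 0 :=
    mul_nonpos_of_nonneg_of_nonpos hX.le h3
  rw [h1]
  linarith

lemma E2_le {X θ Q1 Q2 q : ℝ} (hX : 0 < X) (hθ0 : 0 ≤ θ) (hq : q ≤ Q1) (hQ2 : 0 < Q2)
    (hQ : 1 / (2 * X) ≤ Q2) :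
    q + (max 1 (θ * X)) ^ 2 / (2 * X) - θ * (max 1 (θ * X)) ≤ (Q1 + Q2) - θ ^ 2 * X / 2 := by
  rcases le_total 1 (θ * X) with h | h
  · rw [max_eq_right h]
    have h3 : (θ * X) ^ 2 / (2 * X) = θ ^ 2 * X / 2 := by
      rw [mul_pow, div_eq_iff (by positivity)]
      ring
    rw [h3]
    nlinarith
  · rw [max_eq_left h, one_pow]
    have h4 : θ ^ 2 * X / 2 ≤ θ := by nlinarith
    linarith

lemma E3_le {c L X θ s σ : ℝ} {N : ℕ} (hL : 1 ≤ L)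
    (hN2 : L ^ 2 - 1 ≤ N) (q3 : (s + σ) ^ 2 / (2 * L ^ 2) ≤ (1 + 6 * c) ^ 2 / 2)
    (q4 : (s + σ) ^ 2 / (2 * X) ≤ (1 + 6 * c) ^ 2 / (4 * c) * L)
    (q5 : θ * s ≤ 4 * c * L) (q6 : θ ^ 2 * X / 2 ≤ 3 * c * L) :
    -((N : ℝ) + 1 / 2) ^ 2 / (2 * L ^ 2) + (s + σ) ^ 2 / (2 * L ^ 2)
      + (s + σ) ^ 2 / (2 * X) + θ * s ≤ (1 / 2 + (1 + 6 * c) ^ 2 / 2 +
        ((1 + 6 * c) ^ 2 / (4 * c) + 7 * c) ^ 2 / 2) - θ ^ 2 * X / 2 := by
  have hL2 : 0 < 2 * L ^ 2 := by positivity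
  have h1 : L ^ 2 / 2 - 1 / 2 ≤ ((N : ℝ) + 1 / 2) ^ 2 / (2 * L ^ 2) := by
    rw [le_div_iff₀ hL2]
    have h0 : 1 ≤ L ^ 2 := one_le_pow₀ hL
    have h2 : 0 ≤ L ^ 2 - 1 / 2 := by linarith
    have h3 : (L ^ 2 - 1 / 2) ^ 2 ≤ ((N : ℝ) + 1 / 2) ^ 2 :=
      pow_le_pow_left₀ h2 (by linarith) 2
    nlinarith
  have h2 : -((N : ℝ) + 1 / 2) ^ 2 / (2 * L ^ 2) = -(((N : ℝ) + 1 / 2) ^ 2 / (2 * L ^ 2)) := by
    rw [neg_div]
  set C3 := (1 + 6 * c) ^ 2 / (4 * c) + 7 * c with hC3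
  have h3 : -(L ^ 2 / 2) + C3 * L ≤ C3 ^ 2 / 2 := by nlinarith [sq_nonneg (L - C3)]
  have h4 : (1 + 6 * c) ^ 2 / (4 * c) * L + 4 * c * L + 3 * c * L = C3 * L := by
    rw [hC3]; ring
  rw [h2]
  linarith

set_option maxHeartbeats 1000000 in
lemma Ex_bound {c : ℝ} (hc : 0 < c) : ∃ C > 0, ∀ L ≥ (1 : ℝ), ∀ θ : ℝ, 0 ≤ θ → θ ≤ 17 / 10 →
    ∀ N : ℕ, (N : ℝ) ≤ L ^ 2 → L ^ 2 - 1 ≤ N →
    Ex L (2 * c * L) (Real.pi / 4 * (2 * c * L)) (max 1 (θ * (2 * c * L))) θ N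
      ≤ C * (L ^ 2 + 1) * Real.exp (-(θ ^ 2 * (2 * c * L) / 2)) := by
  set C5 : ℝ := 1 / 2 + (1 + 6 * c) ^ 2 / 2 +
        ((1 + 6 * c) ^ 2 / (4 * c) + 7 * c) ^ 2 / 2 with hC5
  refine ⟨4 * Real.exp (2 * c ^ 2) + 4 * Real.exp ((1 + 4 * c) ^ 2 / 2 + 1 / (4 * c)) +
    2 * (1 + 6 * c) * Real.exp C5, by positivity, ?_⟩
  intro L hL θ hθ0 hθ1 N hN1 hN2
  have hLp : 0 < L := by linarith
  have hN0 : (0 : ℝ) ≤ N := Nat.cast_nonneg N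
  have hpi1 := Real.pi_gt_d2
  have hpi2 := Real.pi_lt_d2
  set X : ℝ := 2 * c * L with hX
  have hXp : 0 < X := by positivity
  set s : ℝ := Real.pi / 4 * X with hs
  set σ : ℝ := max 1 (θ * X) with hσ
  have hsp : 0 < s := by positivity
  have hσp : 0 < σ := lt_of_lt_of_le one_pos (le_max_left _ _)
  have hcL : 0 < c * L := by positivity
  have hs_le : s ≤ 2 * c * L := by
    have : s ≤ 1 * X := mul_le_mul_of_nonneg_right (by linarith) hXp.le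
    linarith
  have hσ_le : σ ≤ (1 + 4 * c) * L := by
    apply max_le
    · nlinarith
    · have : θ * X ≤ (17 / 10) * X := mul_le_mul_of_nonneg_right hθ1 hXp.le
      rw [hX] at this ⊢
      nlinarith
  have hsσ : s + σ ≤ (1 + 6 * c) * L := by linarith
  have hL2 : 0 < 2 * L ^ 2 := by positivity
  have q1 : s ^ 2 / (2 * L ^ 2) ≤ 2 * c ^ 2 := by
    rw [div_le_iff₀ hL2]
    have : s ^ 2 ≤ (2 * c * L) ^ 2 := pow_le_pow_left₀ hsp.le hs_le 2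
    linarith
  have q2 : σ ^ 2 / (2 * L ^ 2) ≤ (1 + 4 * c) ^ 2 / 2 := by
    rw [div_le_iff₀ hL2]
    have : σ ^ 2 ≤ ((1 + 4 * c) * L) ^ 2 := pow_le_pow_left₀ hσp.le hσ_le 2
    linarith
  have q3 : (s + σ) ^ 2 / (2 * L ^ 2) ≤ (1 + 6 * c) ^ 2 / 2 := by
    rw [div_le_iff₀ hL2]
    have : (s + σ) ^ 2 ≤ ((1 + 6 * c) * L) ^ 2 := pow_le_pow_left₀ (by positivity) hsσ 2
    linarith
  have q4 : (s + σ) ^ 2 / (2 * X) ≤ (1 + 6 * c) ^ 2 / (4 * c) * L := by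
    have : (s + σ) ^ 2 ≤ ((1 + 6 * c) * L) ^ 2 := pow_le_pow_left₀ (by positivity) hsσ 2
    rw [div_le_iff₀ (by positivity)]
    calc (s + σ) ^ 2 ≤ ((1 + 6 * c) * L) ^ 2 := this
      _ = (1 + 6 * c) ^ 2 / (4 * c) * L * (2 * X) := by rw [hX]; field_simp; ring
  have q5 : θ * s ≤ 4 * c * L := by
    have h1 : θ * s ≤ (17 / 10) * (2 * c * L) := mul_le_mul hθ1 hs_le hsp.le (by norm_num)
    linarith
  have q6 : θ ^ 2 * X / 2 ≤ 3 * c * L := by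
    have h1 : θ ^ 2 ≤ (17 / 10) ^ 2 := pow_le_pow_left₀ hθ0 hθ1 2
    have h2 : θ ^ 2 * X ≤ (17 / 10) ^ 2 * X := mul_le_mul_of_nonneg_right h1 hXp.le
    have h3 : ((17 : ℝ) / 10) ^ 2 * X = 5.78 * (c * L) := by rw [hX]; ring
    rw [h3] at h2
    linarith
  have E1 := E1_le hXp hθ0 hθ1 q1
  have E2 := E2_le (Q2 := 1 / (4 * c)) hXp hθ0 q2 (by positivity) (by
    apply one_div_le_one_div_of_le (by positivity)
    rw [hX]
    have := mul_le_mul_of_nonneg_left hL (by positivity : (0 : ℝ) ≤ 4 * c)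
    linarith)
  have E3 := E3_le hL hN2 q3 q4 q5 q6
  rw [← hC5] at E3
  rw [← hs] at E1
  rw [← hσ] at E2
  unfold Ex
  set T0 := Real.exp (-(θ ^ 2 * X / 2)) with hT0
  have hT0p : 0 < T0 := Real.exp_pos _
  have g1 : 2 * Real.exp (-(2 * Real.pi * s)) *
      Real.exp (s ^ 2 / (2 * L ^ 2) + s ^ 2 / (2 * X) + θ * s)
      ≤ 2 * Real.exp (2 * c ^ 2) * T0 := by
    have h1 : 2 * Real.exp (-(2 * Real.pi * s)) *
        Real.exp (s ^ 2 / (2 * L ^ 2) + s ^ 2 / (2 * X) + θ * s) =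
        2 * Real.exp (-(2 * Real.pi * s) + (s ^ 2 / (2 * L ^ 2) + s ^ 2 / (2 * X) + θ * s)) := by
      rw [Real.exp_add (-(2 * Real.pi * s))]; ring
    have h2 : 2 * Real.exp (2 * c ^ 2) * T0 = 2 * Real.exp (2 * c ^ 2 + -(θ ^ 2 * X / 2)) := by
      rw [hT0, Real.exp_add]; ring
    rw [h1, h2]
    apply mul_le_mul_of_nonneg_left _ (by norm_num)
    apply Real.exp_le_exp.mpr
    linarith
  have g2 : 2 * Real.exp (σ ^ 2 / (2 * L ^ 2) + σ ^ 2 / (2 * X) - θ * σ)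
      ≤ 2 * Real.exp ((1 + 4 * c) ^ 2 / 2 + 1 / (4 * c)) * T0 := by
    rw [mul_assoc, hT0, ← Real.exp_add]
    apply mul_le_mul_of_nonneg_left _ (by norm_num)
    apply Real.exp_le_exp.mpr
    linarith
  have g3 : Real.exp (-((N : ℝ) + 1 / 2) ^ 2 / (2 * L ^ 2) + (s + σ) ^ 2 / (2 * L ^ 2)
      + (s + σ) ^ 2 / (2 * X) + θ * s) ≤ Real.exp C5 * T0 := by
    rw [hT0, ← Real.exp_add]
    apply Real.exp_le_exp.mpr
    linarith
  calc _ ≤ (2 * L ^ 2 + 1) * (2 * Real.exp (2 * c ^ 2) * T0 +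
        2 * Real.exp ((1 + 4 * c) ^ 2 / 2 + 1 / (4 * c)) * T0) +
        2 * ((1 + 6 * c) * L) * (Real.exp C5 * T0) := by
        gcongr
    _ ≤ 2 * (L ^ 2 + 1) * (2 * Real.exp (2 * c ^ 2) * T0 +
        2 * Real.exp ((1 + 4 * c) ^ 2 / 2 + 1 / (4 * c)) * T0) +
        2 * ((1 + 6 * c) * (L ^ 2 + 1)) * (Real.exp C5 * T0) := by
        have h1 : 2 * L ^ 2 + 1 ≤ 2 * (L ^ 2 + 1) := by linarith
        have h2 : L ≤ L ^ 2 + 1 := by nlinarith [sq_nonneg (L - 1)]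
        gcongr
    _ = _ := by ring

set_option maxHeartbeats 1000000 in
/-- the alternating sum: `θ = π`, top line at `(3/2) X` -/
lemma Ex_bound2 {c : ℝ} (hc : 0 < c) : ∃ C > 0, ∀ L ≥ (1 : ℝ), 1 ≤ 3 / 2 * (2 * c * L) →
    ∀ N : ℕ, (N : ℝ) ≤ L ^ 2 → L ^ 2 - 1 ≤ N →
    Ex L (2 * c * L) (Real.pi / 4 * (2 * c * L)) (3 / 2 * (2 * c * L)) Real.pi N
      ≤ C * (L ^ 2 + 1) * Real.exp (-(2 * (2 * c * L))) := by
  refine ⟨4 * Real.exp (2 * c ^ 2) + 4 * Real.exp (5 * c ^ 2) +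
    10 * c * Real.exp (1 / 2 + 13 * c ^ 2 + (26 * c) ^ 2 / 2), by positivity, ?_⟩
  intro L hL hX1 N hN1 hN2
  have hLp : 0 < L := by linarith
  have hN0 : (0 : ℝ) ≤ N := Nat.cast_nonneg N
  have hpi1 := Real.pi_gt_d2
  have hpi2 := Real.pi_lt_d2
  set X : ℝ := 2 * c * L with hX
  have hXp : 0 < X := by positivity
  set s : ℝ := Real.pi / 4 * X with hs
  set σ : ℝ := 3 / 2 * X with hσ
  have hsp : 0 < s := by positivity
  have hσp : 0 < σ := by positivity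
  have hcL : 0 < c * L := by positivity
  have hs_le : s ≤ X := by
    have : s ≤ 1 * X := mul_le_mul_of_nonneg_right (by linarith) hXp.le
    linarith
  have hpi6 : (9.8 : ℝ) ≤ Real.pi ^ 2 := by
    have h7 : (3.14 : ℝ) ^ 2 ≤ Real.pi ^ 2 := pow_le_pow_left₀ (by norm_num) hpi1.le 2
    have h8 : (9.8 : ℝ) ≤ (3.14 : ℝ) ^ 2 := by norm_num
    exact h8.trans h7
  have hL2 : 0 < 2 * L ^ 2 := by positivity
  have hXX : X ^ 2 / (2 * L ^ 2) = 2 * c ^ 2 := by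
    rw [hX, div_eq_iff hL2.ne']; ring
  have hXX2 : X ^ 2 / (2 * X) = X / 2 := by field_simp
  have q1 : s ^ 2 / (2 * L ^ 2) ≤ 2 * c ^ 2 := by
    rw [← hXX]
    exact div_le_div_of_nonneg_right (pow_le_pow_left₀ hsp.le hs_le 2) hL2.le
  have q2 : σ ^ 2 / (2 * L ^ 2) = 9 / 2 * c ^ 2 := by
    have : σ ^ 2 / (2 * L ^ 2) = 9 / 4 * (X ^ 2 / (2 * L ^ 2)) := by rw [hσ]; ring
    rw [this, hXX]; ring
  have hsσ : s + σ ≤ 5 / 2 * X := by linarith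
  have q3 : (s + σ) ^ 2 / (2 * L ^ 2) ≤ 25 / 2 * c ^ 2 := by
    have h1 : (s + σ) ^ 2 ≤ (5 / 2 * X) ^ 2 := pow_le_pow_left₀ (by positivity) hsσ 2
    have h2 : (5 / 2 * X) ^ 2 / (2 * L ^ 2) = 25 / 2 * c ^ 2 := by
      have : (5 / 2 * X) ^ 2 / (2 * L ^ 2) = 25 / 4 * (X ^ 2 / (2 * L ^ 2)) := by ring
      rw [this, hXX]; ring
    rw [← h2]
    exact div_le_div_of_nonneg_right h1 hL2.le
  have q4 : (s + σ) ^ 2 / (2 * X) ≤ 25 / 8 * X := by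
    have h1 : (s + σ) ^ 2 ≤ (5 / 2 * X) ^ 2 := pow_le_pow_left₀ (by positivity) hsσ 2
    have h2 : (5 / 2 * X) ^ 2 / (2 * X) = 25 / 8 * X := by
      have : (5 / 2 * X) ^ 2 / (2 * X) = 25 / 4 * (X ^ 2 / (2 * X)) := by ring
      rw [this, hXX2]; ring
    rw [← h2]
    exact div_le_div_of_nonneg_right h1 (by positivity)
  have q5 : Real.pi * s ≤ 4 * X := by
    have : Real.pi * s ≤ 3.15 * X := mul_le_mul hpi2.le hs_le hsp.le (by norm_num)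
    linarith
  have E1 : -(2 * Real.pi * s) + (s ^ 2 / (2 * L ^ 2) + s ^ 2 / (2 * X) + Real.pi * s)
      ≤ 2 * c ^ 2 - 2 * X := by
    have h1 : s ^ 2 / (2 * X) = Real.pi ^ 2 / 32 * X := by
      have : s ^ 2 / (2 * X) = Real.pi ^ 2 / 16 * (X ^ 2 / (2 * X)) := by rw [hs]; ring
      rw [this, hXX2]; ring
    have h2 : -(2 * Real.pi * s) + Real.pi * s = -(Real.pi ^ 2 / 4) * X := by rw [hs]; ring
    have h3 : 9.8 * X ≤ Real.pi ^ 2 * X := mul_le_mul_of_nonneg_right hpi6 hXp.le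
    rw [h1]
    linarith
  have E2 : σ ^ 2 / (2 * L ^ 2) + σ ^ 2 / (2 * X) - Real.pi * σ ≤ 5 * c ^ 2 - 2 * X := by
    have h1 : σ ^ 2 / (2 * X) = 9 / 8 * X := by
      have : σ ^ 2 / (2 * X) = 9 / 4 * (X ^ 2 / (2 * X)) := by rw [hσ]; ring
      rw [this, hXX2]; ring
    have h2 : 3.14 * σ ≤ Real.pi * σ := mul_le_mul_of_nonneg_right hpi1.le hσp.le
    have h3 : 3.14 * σ = 4.71 * X := by rw [hσ]; ring
    rw [h1, q2]
    have h4 : 0 ≤ c ^ 2 := sq_nonneg c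
    linarith
  have E3 : -((N : ℝ) + 1 / 2) ^ 2 / (2 * L ^ 2) + (s + σ) ^ 2 / (2 * L ^ 2)
      + (s + σ) ^ 2 / (2 * X) + Real.pi * s ≤ (1 / 2 + 13 * c ^ 2 + (26 * c) ^ 2 / 2) - 2 * X := by
    have h1 : L ^ 2 / 2 - 1 / 2 ≤ ((N : ℝ) + 1 / 2) ^ 2 / (2 * L ^ 2) := by
      rw [le_div_iff₀ hL2]
      have h0 : 1 ≤ L ^ 2 := one_le_pow₀ hL
      have h2 : 0 ≤ L ^ 2 - 1 / 2 := by linarith
      have h3 : (L ^ 2 - 1 / 2) ^ 2 ≤ ((N : ℝ) + 1 / 2) ^ 2 :=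
        pow_le_pow_left₀ h2 (by linarith) 2
      nlinarith
    have h2 : -((N : ℝ) + 1 / 2) ^ 2 / (2 * L ^ 2) = -(((N : ℝ) + 1 / 2) ^ 2 / (2 * L ^ 2)) := by
      rw [neg_div]
    have h3 : -(L ^ 2 / 2) + 26 * c * L ≤ (26 * c) ^ 2 / 2 := by nlinarith [sq_nonneg (L - 26 * c)]
    have h4 : 25 / 8 * X + 4 * X + 2 * X ≤ 26 * c * L := by rw [hX]; linarith
    have h5 : 0 ≤ c ^ 2 := sq_nonneg c
    rw [h2]
    linarith
  unfold Ex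
  set T0 := Real.exp (-(2 * X)) with hT0
  have hT0p : 0 < T0 := Real.exp_pos _
  have ee : ∀ u v : ℝ, u ≤ v - 2 * X → Real.exp u ≤ Real.exp v * T0 := by
    intro u v huv
    rw [hT0, ← Real.exp_add]
    apply Real.exp_le_exp.mpr
    linarith
  have g1 : 2 * Real.exp (-(2 * Real.pi * s)) *
      Real.exp (s ^ 2 / (2 * L ^ 2) + s ^ 2 / (2 * X) + Real.pi * s)
      ≤ 2 * (Real.exp (2 * c ^ 2) * T0) := by
    have h1 : 2 * Real.exp (-(2 * Real.pi * s)) *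
        Real.exp (s ^ 2 / (2 * L ^ 2) + s ^ 2 / (2 * X) + Real.pi * s) =
        2 * Real.exp (-(2 * Real.pi * s) + (s ^ 2 / (2 * L ^ 2) + s ^ 2 / (2 * X) + Real.pi * s)) := by
      rw [Real.exp_add (-(2 * Real.pi * s))]; ring
    rw [h1]
    exact mul_le_mul_of_nonneg_left (ee _ _ E1) (by norm_num)
  have g2 : 2 * Real.exp (σ ^ 2 / (2 * L ^ 2) + σ ^ 2 / (2 * X) - Real.pi * σ)
      ≤ 2 * (Real.exp (5 * c ^ 2) * T0) := mul_le_mul_of_nonneg_left (ee _ _ E2) (by norm_num)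
  have g3 := ee _ _ E3
  have hss : 2 * (s + σ) ≤ 10 * (c * L) := by rw [hX] at hsσ; linarith
  calc _ ≤ (2 * L ^ 2 + 1) * (2 * (Real.exp (2 * c ^ 2) * T0) + 2 * (Real.exp (5 * c ^ 2) * T0)) +
        (10 * (c * L)) * (Real.exp (1 / 2 + 13 * c ^ 2 + (26 * c) ^ 2 / 2) * T0) := by
        gcongr
    _ ≤ (2 * (L ^ 2 + 1)) * (2 * (Real.exp (2 * c ^ 2) * T0) + 2 * (Real.exp (5 * c ^ 2) * T0)) +
        (10 * (c * (L ^ 2 + 1))) * (Real.exp (1 / 2 + 13 * c ^ 2 + (26 * c) ^ 2 / 2) * T0) := by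
        have h1 : 2 * L ^ 2 + 1 ≤ 2 * (L ^ 2 + 1) := by linarith
        have h2 : L ≤ L ^ 2 + 1 := by nlinarith [sq_nonneg (L - 1)]
        gcongr
    _ = _ := by ring

end NUI
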