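import Pool.Agent.NUI.Fin

/-!
# From the estimate (CR) to GROWTH

`(CR)`: the sum over the number `n` of quanta of the moduli of the contour integrals `Z m n s` with a complex
number `s` of pairs of rows.
-/

open Complex Set Filter Topology Polynomial

namespace NUI

/-- (CR), with exactness at the integers: `W J` is the value at `b = iπ/2` (loop weight zero),
`exp (A s ^ 2 + B s)` the mean field value of `s` pairs of rows. -/
def CR (a c R A B : ℝ) (W : ℕ → ℝ) (P : ℕ → ℝ[X]) : Prop :=
  ∀ ε > 0, ∀ᶠ m : ℕ in atTop, ∃ (N : ℕ) (Z : ℕ → ℂ → ℂ),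
    (∀ n ∈ Finset.range N, ∀ s : ℂ, |s.re - m| ≤ NN m + 1 / 2 →
      -(Real.pi / 4 * XX c m) ≤ s.im → s.im ≤ 17 / 10 * XX c m → DifferentiableAt ℂ (Z n) s) ∧
    (∀ J : ℕ, m ≤ J + NN m → J ≤ m + NN m → ∀ b : ℂ,
      ∑ n ∈ Finset.range N, exp (b * (J - n)) * Z n J
        = W J * aeval (2 * Complex.cosh b) (P J)) ∧
    (∀ β : ℝ, 0 ≤ β → β ≤ R → ∀ s : ℂ, |s.re - m| ≤ NN m + 1 / 2 →
      -(Real.pi / 4 * XX c m) ≤ s.im → s.im ≤ 17 / 10 * XX c m →
      ∑ n ∈ Finset.range N, Real.exp (β * (s.re - n)) * ‖Z n s‖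
        ≤ Real.exp (A * s.re ^ 2 + B * s.re) * Real.exp ((a + c * β ^ 2 + ε) * Real.log m)
          * Real.exp (-(s.im ^ 2 * (A - 1 / (2 * XX c m)))))

lemma NN_lt_self : ∀ᶠ m : ℕ in atTop, NN m < m := by
  filter_upwards [poly_absorb (C := 2) (ε := 1) one_pos, eventually_ge_atTop 1, log_ge 1] with m hm h1 hL
  have hm0 : (0 : ℝ) < m := by exact_mod_cast h1
  rw [one_mul, Real.exp_log hm0] at hm
  have := NN_le m
  have h3 : (0 : ℝ) < (Real.log m) ^ 2 := by positivity
  have h2 : (NN m : ℝ) < m := by nlinarith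
  exact_mod_cast h2

theorem growth_of_CR {a c R A B : ℝ} {W : ℕ → ℝ} {P : ℕ → ℝ[X]} (h : CR a c R A B W P) :
    Growth a c R (fun n => W n / Real.exp (A * (n : ℝ) ^ 2 + B * n)) P := by
  intro ε hε
  filter_upwards [h ε hε, NN_le_self] with m hm hNN b hbR hb0 hb1
  obtain ⟨N, Z, hZd, hZe, hZb⟩ := hm
  refine ⟨fun z => exp (b * (m + z) - (A * (m + z) ^ 2 + B * (m + z))) *
    ∑ n ∈ Finset.range N, exp (-(b * n)) * Z n (m + z), ?_, ?_⟩
  · intro z h1 h2 h3
    have hre : ((m : ℂ) + z).re = m + z.re := by simp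
    have him : ((m : ℂ) + z).im = z.im := by simp
    have h1' : |((m : ℂ) + z).re - m| ≤ NN m + 1 / 2 := by
      rw [hre]; simpa using h1
    refine ⟨?_, ?_⟩
    · apply DifferentiableAt.mul
      · fun_prop
      · have : ∀ n ∈ Finset.range N,
            DifferentiableAt ℂ (fun z => exp (-(b * n)) * Z n (m + z)) z := by
          intro n hn
          apply DifferentiableAt.mul
          · fun_prop
          · have h4 := hZd n hn (m + z) h1' (by rw [him]; exact h2) (by rw [him]; exact h3)
            exact DifferentiableAt.comp z h4 (by fun_prop)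
        exact DifferentiableAt.fun_sum this
    · have hb : b.re ≤ R := (re_le_norm b).trans hbR
      have h5 := hZb b.re hb0 hb (m + z) h1' (by rw [him]; exact h2) (by rw [him]; exact h3)
      set s : ℂ := m + z with hs
      have hsim : s.im = z.im := him
      have e1 : ‖exp (b * s - (A * s ^ 2 + B * s)) *
          ∑ n ∈ Finset.range N, exp (-(b * n)) * Z n s‖
          ≤ Real.exp (-(b.im * s.im)) * Real.exp (-(A * (s.re ^ 2 - s.im ^ 2) + B * s.re)) *
            ∑ n ∈ Finset.range N, Real.exp (b.re * (s.re - n)) * ‖Z n s‖ := by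
        rw [norm_mul, norm_exp, Finset.mul_sum]
        refine (mul_le_mul_of_nonneg_left (norm_sum_le _ _) (Real.exp_pos _).le).trans ?_
        rw [Finset.mul_sum]
        apply Finset.sum_le_sum
        intro n _
        rw [norm_mul, norm_exp]
        have e2 : (b * s - (A * s ^ 2 + B * s)).re
            = b.re * s.re - b.im * s.im - (A * (s.re ^ 2 - s.im ^ 2) + B * s.re) := by
          simp [pow_two]
        have e3 : (-(b * (n : ℂ))).re = -(b.re * n) := by simp
        rw [e2, e3]
        apply le_of_eq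
        have e4 : Real.exp (b.re * s.re - b.im * s.im - (A * (s.re ^ 2 - s.im ^ 2) + B * s.re))
            * Real.exp (-(b.re * n)) =
            Real.exp (-(b.im * s.im)) * Real.exp (-(A * (s.re ^ 2 - s.im ^ 2) + B * s.re)) *
              Real.exp (b.re * (s.re - n)) := by
          rw [← Real.exp_add, ← Real.exp_add, ← Real.exp_add]
          congr 1
          ring
        rw [← mul_assoc, e4]
        ring
      refine e1.trans ?_
      calc Real.exp (-(b.im * s.im)) * Real.exp (-(A * (s.re ^ 2 - s.im ^ 2) + B * s.re)) *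
            ∑ n ∈ Finset.range N, Real.exp (b.re * (s.re - n)) * ‖Z n s‖
          ≤ Real.exp (-(b.im * s.im)) * Real.exp (-(A * (s.re ^ 2 - s.im ^ 2) + B * s.re)) *
            (Real.exp (A * s.re ^ 2 + B * s.re) * Real.exp ((a + c * b.re ^ 2 + ε) * Real.log m)
              * Real.exp (-(s.im ^ 2 * (A - 1 / (2 * XX c m))))) :=
            mul_le_mul_of_nonneg_left h5 (by positivity)
        _ = Real.exp ((a + c * b.re ^ 2 + ε) * Real.log m
              + z.im ^ 2 / (2 * XX c m) - b.im * z.im) := by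
            rw [← Real.exp_add, ← Real.exp_add, ← Real.exp_add, ← Real.exp_add, hsim]
            congr 1
            ring
  · intro i hi
    rw [Finset.mem_range] at hi
    have hJ1 : m ≤ (m - NN m + i) + NN m := by omega
    have hJ2 : m - NN m + i ≤ m + NN m := by omega
    have h4 := hZe (m - NN m + i) hJ1 hJ2 b
    have hcast : ((m : ℂ) + ((-(NN m : ℤ) + i : ℤ) : ℂ)) = ((m - NN m + i : ℕ) : ℂ) := by
      have : ((m - NN m + i : ℕ) : ℤ) = (m : ℤ) + (-(NN m : ℤ) + i) := by
        push_cast [Nat.cast_sub hNN]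
        ring
      have h5 : (((m - NN m + i : ℕ) : ℤ) : ℂ) = (((m : ℤ) + (-(NN m : ℤ) + i) : ℤ) : ℂ) := by
        rw [this]
      rw [Int.cast_natCast] at h5
      rw [h5]
      push_cast
      ring
    simp only
    rw [hcast]
    set J := m - NN m + i with hJ
    have e6 : exp (b * J - (A * (J : ℂ) ^ 2 + B * J)) *
        ∑ n ∈ Finset.range N, exp (-(b * n)) * Z n J
        = exp (-(A * (J : ℂ) ^ 2 + B * J)) *
          ∑ n ∈ Finset.range N, exp (b * (J - n)) * Z n J := by
      rw [Finset.mul_sum, Finset.mul_sum]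
      apply Finset.sum_congr rfl
      intro n _
      rw [← mul_assoc, ← mul_assoc, ← exp_add, ← exp_add]
      congr 2
      ring
    rw [e6, h4]
    push_cast
    rw [Complex.exp_neg]
    field_simp

end NUI
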