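import Mathlib

open Complex Set Filter Topology Polynomial

namespace NUI

lemma eval_pos_le {P : ℝ[X]} (hP : ∀ i, 0 ≤ P.coeff i) {x y : ℝ} (hx : 0 ≤ x) (hxy : x ≤ y) :
    P.eval x ≤ P.eval y := by
  rw [Polynomial.eval_eq_sum_range, Polynomial.eval_eq_sum_range]
  apply Finset.sum_le_sum
  intro i _
  exact mul_le_mul_of_nonneg_left (pow_le_pow_left₀ hx hxy i) (hP i)

lemma eval_nonneg' {P : ℝ[X]} (hP : ∀ i, 0 ≤ P.coeff i) {x : ℝ} (hx : 0 ≤ x) : 0 ≤ P.eval x := by
  rw [Polynomial.eval_eq_sum_range]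
  apply Finset.sum_nonneg
  intro i _
  exact mul_nonneg (hP i) (pow_nonneg hx i)

lemma aeval_norm_le {P : ℝ[X]} (hP : ∀ i, 0 ≤ P.coeff i) (z : ℂ) :
    ‖aeval z P‖ ≤ P.eval ‖z‖ := by
  rw [Polynomial.aeval_eq_sum_range, Polynomial.eval_eq_sum_range]
  refine (norm_sum_le _ _).trans ?_
  apply Finset.sum_le_sum
  intro i _
  rw [norm_smul, norm_pow, Real.norm_of_nonneg (hP i)]

lemma cosh_norm_le (b : ℂ) : ‖2 * Complex.cosh b‖ ≤ 2 * Real.cosh |b.re| := by
  rw [Real.cosh_abs]
  have h : (2 : ℂ) * Complex.cosh b = exp b + exp (-b) := by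
    rw [Complex.cosh]; ring
  rw [h]
  refine (norm_add_le _ _).trans ?_
  rw [norm_exp, norm_exp, Real.cosh_eq, neg_re]
  linarith

/-- Hoelder: log-convexity in `log x` -/
lemma log_convex {P : ℝ[X]} (hP : ∀ i, 0 ≤ P.coeff i) {x y t : ℝ} (hx : 0 < x) (hy : 0 < y)
    (ht : 0 ≤ t) (ht1 : t ≤ 1) :
    P.eval (x ^ (1 - t) * y ^ t) ≤ (P.eval x) ^ (1 - t) * (P.eval y) ^ t := by
  by_cases h0 : P = 0
  · subst h0
    simp only [eval_zero]
    positivity
  have hpos : ∀ z : ℝ, 0 < z → 0 < P.eval z := by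
    intro z hz
    rw [Polynomial.eval_eq_sum_range]
    apply Finset.sum_pos'
    · intro i _
      exact mul_nonneg (hP i) (pow_nonneg hz.le i)
    · refine ⟨P.natDegree, by simp, ?_⟩
      apply mul_pos _ (pow_pos hz _)
      apply lt_of_le_of_ne (hP _)
      intro h
      exact h0 (by
        rw [← Polynomial.leadingCoeff_eq_zero]
        exact h.symm)
  have hA := hpos x hx
  have hB := hpos y hy
  set A := P.eval x with hAd
  set B := P.eval y with hBd
  have hAB : 0 < A ^ (1 - t) * B ^ t := by positivity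
  have key : ∀ i, P.coeff i * (x ^ (1 - t) * y ^ t) ^ i
      ≤ (A ^ (1 - t) * B ^ t) * ((1 - t) * (P.coeff i * x ^ i / A) + t * (P.coeff i * y ^ i / B)) := by
    intro i
    have hu : 0 ≤ P.coeff i * x ^ i / A :=
      div_nonneg (mul_nonneg (hP i) (pow_nonneg hx.le i)) hA.le
    have hv : 0 ≤ P.coeff i * y ^ i / B :=
      div_nonneg (mul_nonneg (hP i) (pow_nonneg hy.le i)) hB.le
    have h1 := Real.geom_mean_le_arith_mean2_weighted (by linarith : 0 ≤ 1 - t) ht hu hv (by ring)
    have h2 := mul_le_mul_of_nonneg_left h1 hAB.le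
    refine le_trans (le_of_eq ?_) h2
    rw [Real.div_rpow (mul_nonneg (hP i) (pow_nonneg hx.le i)) hA.le,
      Real.div_rpow (mul_nonneg (hP i) (pow_nonneg hy.le i)) hB.le,
      Real.mul_rpow (hP i) (pow_nonneg hx.le i), Real.mul_rpow (hP i) (pow_nonneg hy.le i)]
    have hc : (P.coeff i) ^ (1 - t) * (P.coeff i) ^ t = P.coeff i := by
      by_cases hz : P.coeff i = 0
      · rw [hz]
        by_cases ht0 : t = 0
        · subst ht0; simp
        · rw [Real.zero_rpow ht0, mul_zero]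
      · have hp : 0 < P.coeff i := lt_of_le_of_ne (hP i) (Ne.symm hz)
        rw [← Real.rpow_add hp]
        simp
    have hxx : (x ^ i) ^ (1 - t) = (x ^ (1 - t)) ^ i := by
      rw [← Real.rpow_natCast, ← Real.rpow_natCast, ← Real.rpow_mul hx.le, ← Real.rpow_mul hx.le,
        mul_comm]
    have hyy : (y ^ i) ^ t = (y ^ t) ^ i := by
      rw [← Real.rpow_natCast, ← Real.rpow_natCast, ← Real.rpow_mul hy.le, ← Real.rpow_mul hy.le,
        mul_comm]
    rw [hxx, hyy, mul_pow]
    have hA' : A ^ (1 - t) ≠ 0 := by positivity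
    have hB' : B ^ t ≠ 0 := by positivity
    calc P.coeff i * ((x ^ (1 - t)) ^ i * (y ^ t) ^ i)
        = ((P.coeff i) ^ (1 - t) * (P.coeff i) ^ t) * ((x ^ (1 - t)) ^ i * (y ^ t) ^ i) := by
          rw [hc]
      _ = _ := by field_simp
  rw [Polynomial.eval_eq_sum_range]
  calc ∑ i ∈ Finset.range (P.natDegree + 1), P.coeff i * (x ^ (1 - t) * y ^ t) ^ i
      ≤ ∑ i ∈ Finset.range (P.natDegree + 1), (A ^ (1 - t) * B ^ t) *
        ((1 - t) * (P.coeff i * x ^ i / A) + t * (P.coeff i * y ^ i / B)) :=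
        Finset.sum_le_sum (fun i _ => key i)
    _ = (A ^ (1 - t) * B ^ t) * ((1 - t) * (A / A) + t * (B / B)) := by
        rw [← Finset.mul_sum, Finset.sum_add_distrib, ← Finset.mul_sum, ← Finset.mul_sum,
          ← Finset.sum_div, ← Finset.sum_div]
        congr 4
        · rw [hAd, Polynomial.eval_eq_sum_range]
        · rw [hBd, Polynomial.eval_eq_sum_range]
    _ = A ^ (1 - t) * B ^ t := by
        rw [div_self hA.ne', div_self hB.ne']; ring

/-- Hadamard three circles -/
theorem three_circles {g : ℂ → ℂ} (hg : Differentiable ℂ g) {r0 R A B : ℝ} (hr0 : 0 < r0)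
    (hR : r0 < R) (hA : ∀ z : ℂ, ‖z‖ = r0 → ‖g z‖ ≤ A) (hB : ∀ z : ℂ, ‖z‖ = R → ‖g z‖ ≤ B)
    {z : ℂ} (hz0 : r0 ≤ ‖z‖) (hzR : ‖z‖ ≤ R) :
    ‖g z‖ ≤ A ^ (1 - (Real.log ‖z‖ - Real.log r0) / (Real.log R - Real.log r0)) *
      B ^ ((Real.log ‖z‖ - Real.log r0) / (Real.log R - Real.log r0)) := by
  have hz : z ≠ 0 := by
    intro h; rw [h, norm_zero] at hz0; linarith
  have hRp : 0 < R := hr0.trans hR
  have hlog : Real.log r0 < Real.log R := Real.log_lt_log hr0 hR
  have hre : ∀ w : ℂ, ‖exp w‖ = Real.exp w.re := fun w => norm_exp w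
  have hd : Differentiable ℂ (fun w => g (exp w)) := hg.comp Complex.differentiable_exp
  have h1 := Complex.HadamardThreeLines.norm_le_interp_of_mem_verticalClosedStrip'
    (f := fun w => g (exp w)) (z := Complex.log z) (a := A) (b := B) hlog
    (by
      simp only [Complex.HadamardThreeLines.verticalClosedStrip, mem_preimage, mem_Icc,
        Complex.log_re]
      exact ⟨Real.log_le_log hr0 hz0, Real.log_le_log (norm_pos_iff.mpr hz) hzR⟩)
    hd.diffContOnCl
    (by
      obtain ⟨C, hC⟩ := (isCompact_closedBall (0 : ℂ) R).exists_bound_of_continuousOn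
        hg.continuous.continuousOn
      refine ⟨C, ?_⟩
      rintro _ ⟨w, hw, rfl⟩
      apply hC
      rw [mem_closedBall_zero_iff, hre]
      simp only [Complex.HadamardThreeLines.verticalClosedStrip, mem_preimage, mem_Icc] at hw
      calc Real.exp w.re ≤ Real.exp (Real.log R) := Real.exp_le_exp.mpr hw.2
        _ = R := Real.exp_log hRp)
    (by
      intro w hw
      apply hA
      rw [hre, show w.re = Real.log r0 from hw, Real.exp_log hr0])
    (by
      intro w hw
      apply hB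
      rw [hre, show w.re = Real.log R from hw, Real.exp_log hRp])
  simpa [Complex.exp_log hz, Complex.log_re] using h1

end NUI
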