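import Pool.Agent.NUI.Assem

open Complex Set Filter Topology Polynomial

namespace NUI

/-- the alternating sum at `b = 0` is small -/
theorem CFalt {a c R : ℝ} {κ : ℕ → ℝ} {P : ℕ → ℝ[X]} (hc : 0 < c) (hR0 : 0 ≤ R)
    (hG : Growth a c R κ P) {ε : ℝ} (hε : 0 < ε) :
    ∀ᶠ m : ℕ in atTop, |∑ i ∈ Finset.range (2 * NN m + 1),
      (-1 : ℝ) ^ (NN m + i) * (wt m i * κ (m - NN m + i) * (P (m - NN m + i)).eval 2)| ≤
      Real.exp (Real.log m * (a + ε - 4 * c)) := by
  obtain ⟨C, hC, hEx⟩ := Ex_bound2 hc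
  filter_upwards [hG (ε / 2) (by positivity), poly_absorb (C := C) (half_pos hε),
    log_ge 1, log_ge (2 / c)] with m hm hpoly hL1 hL2
  obtain ⟨f, hf1, hf2⟩ := hm 0 (by simpa using hR0) (by simp) (by simp)
  set L := Real.log m with hLd
  have hLp : 0 < L := by linarith
  have hXX : XX c m = 2 * c * L := rfl
  have hcL : 2 ≤ c * L := by
    have := mul_le_mul_of_nonneg_left hL2 hc.le
    rwa [mul_div_cancel₀ _ hc.ne'] at this
  have hXp : 0 < 2 * c * L := by positivity
  have hpi1 := Real.pi_gt_d2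
  have hpi2 := Real.pi_lt_d2
  have hs1 : 1 ≤ Real.pi / 4 * (2 * c * L) := by nlinarith
  have hσ1 : (1 : ℝ) ≤ 3 / 2 * (2 * c * L) := by linarith
  set f1 : ℂ → ℂ := fun z => exp (Real.pi * I * z) * f z with hf1d
  have hraw := CF_raw (f := f1) (L := L) (X := 2 * c * L) (s := Real.pi / 4 * (2 * c * L))
    (σ := 3 / 2 * (2 * c * L)) (θ := Real.pi) (B := (a + ε / 2) * L)
    (NN m) hXp hLp hs1 hσ1 Real.pi_pos.le (by
      intro z hz
      obtain ⟨h1, h2, h3, h4⟩ := hz
      obtain ⟨g1, g2⟩ := hf1 z (abs_le.mpr ⟨h1, h2⟩) h3 (h4.trans (by rw [hXX]; linarith))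
      refine ⟨?_, ?_⟩
      · apply DifferentiableAt.mul _ g1
        fun_prop
      · rw [hf1d]
        simp only [norm_mul, norm_exp]
        have hre : (Real.pi * I * z).re = -(Real.pi * z.im) := by simp
        rw [hre]
        calc Real.exp (-(Real.pi * z.im)) * ‖f z‖
            ≤ Real.exp (-(Real.pi * z.im)) * Real.exp ((a + c * (0 : ℂ).re ^ 2 + ε / 2) * L
              + z.im ^ 2 / (2 * XX c m) - (0 : ℂ).im * z.im) :=
              mul_le_mul_of_nonneg_left g2 (Real.exp_pos _).le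
          _ = _ := by
              rw [← Real.exp_add, hXX]
              congr 1
              simp only [zero_re, zero_im]
              ring)
  have hsum : ∑ i ∈ Finset.range (2 * NN m + 1), ww L ((-(NN m : ℤ) + i : ℤ) : ℂ) *
        f1 ((-(NN m : ℤ) + i : ℤ) : ℂ) = ((∑ i ∈ Finset.range (2 * NN m + 1),
      (-1 : ℝ) ^ (NN m + i) * (wt m i * κ (m - NN m + i) * (P (m - NN m + i)).eval 2) : ℝ) : ℂ) := by
    rw [ofReal_sum]
    apply Finset.sum_congr rfl
    intro i hi
    rw [← wt_ww]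
    have he : exp (Real.pi * I * ((-(NN m : ℤ) + i : ℤ) : ℂ)) = (-1) ^ (NN m + i) := by
      have h1 : Real.pi * I * ((-(NN m : ℤ) + i : ℤ) : ℂ)
          = ((NN m + i : ℕ) : ℂ) * (Real.pi * I) + ((-(NN m : ℤ) : ℤ) : ℂ) * (2 * Real.pi * I) := by
        push_cast; ring
      rw [h1, Complex.exp_add, Complex.exp_int_mul_two_pi_mul_I, mul_one, Complex.exp_nat_mul,
        Complex.exp_pi_mul_I]
    have h2 : aeval (2 * Complex.cosh 0) (P (m - NN m + i))
        = (((P (m - NN m + i)).eval 2 : ℝ) : ℂ) := by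
      have h3 : (2 : ℂ) * Complex.cosh 0 = ((2 : ℝ) : ℂ) := by simp
      rw [h3]
      simpa using (Polynomial.aeval_algebraMap_apply ℂ (2 : ℝ) (P (m - NN m + i)))
    rw [hf1d]
    simp only
    rw [he, hf2 i hi, h2]
    push_cast
    ring
  rw [hsum, norm_real, Real.norm_eq_abs] at hraw
  refine hraw.trans ?_
  have h5 := hEx L hL1 hσ1 (NN m) (NN_le m) (NN_ge m)
  calc Real.exp ((a + ε / 2) * L) *
      Ex L (2 * c * L) (Real.pi / 4 * (2 * c * L)) (3 / 2 * (2 * c * L)) Real.pi (NN m)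
      ≤ Real.exp ((a + ε / 2) * L) *
        (Real.exp (ε / 2 * L) * Real.exp (-(2 * (2 * c * L)))) := by
        apply mul_le_mul_of_nonneg_left _ (Real.exp_pos _).le
        refine h5.trans ?_
        exact mul_le_mul_of_nonneg_right hpoly (Real.exp_pos _).le
    _ = Real.exp (L * (a + ε - 4 * c)) := by
        rw [← Real.exp_add, ← Real.exp_add]
        congr 1
        ring

lemma NN_le_self : ∀ᶠ m : ℕ in atTop, NN m ≤ m := by
  filter_upwards [poly_absorb (C := 1) (ε := 1) one_pos, eventually_ge_atTop 1] with m hm h1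
  have hm0 : (0 : ℝ) < m := by exact_mod_cast h1
  rw [one_mul, one_mul, Real.exp_log hm0] at hm
  have := NN_le m
  have h2 : (NN m : ℝ) ≤ m := by linarith
  exact_mod_cast h2

/-- **Lower half.** -/
theorem lower_half {a c R : ℝ} {κ : ℕ → ℝ} {P : ℕ → ℝ[X]} (hc : 0 < c)
    (hR1 : Real.pi / 2 < R) (hR2 : R ≤ 17 / 10)
    (hP : ∀ n i, 0 ≤ (P n).coeff i) (hP0 : ∀ n, (P n).eval 0 = 1)
    (hκ : ∀ n, 0 < κ n)
    (hκl : ∀ ε > 0, ∀ᶠ m : ℕ in atTop, Real.exp ((a - c * (Real.pi ^ 2 / 4) - ε) * Real.log m) ≤ κ m)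
    (hG : Growth a c R κ P) :
    ∀ δ > 0, ∀ᶠ m : ℕ in atTop, ∃ T : ℕ, 2 * T ≤ m + NN m ∧ m ≤ 2 * T + NN m ∧
      Real.exp ((c * (Real.pi ^ 2 / 4) - δ) * Real.log m) ≤ (P (2 * T)).eval 2 := by
  intro δ hδ
  have hR0 : 0 < R := lt_trans (by positivity) hR1
  set δ' := min (δ / 4) c with hδ'
  have hδ'p : 0 < δ' := lt_min (by positivity) hc
  obtain ⟨ε1, hε1, hchain⟩ := chain hc hR1 hδ'p
  set ε := min ε1 (min (δ / 4) c) with hε
  have hεp : 0 < ε := lt_min hε1 hδ'p
  have hεε1 : ε ≤ ε1 := min_le_left _ _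
  have hεδ : ε ≤ δ / 4 := (min_le_right _ _).trans (min_le_left _ _)
  have hεc : ε ≤ c := (min_le_right _ _).trans (min_le_right _ _)
  have hδδ : δ' ≤ δ / 4 := min_le_left _ _
  have hδc : δ' ≤ c := min_le_right _ _
  filter_upwards [CF hc hR2 hG hεp, CFalt hc hR0.le hG hεp, hκl ε hεp, NN_le_self,
    log_ge 1, log_ge (8 / δ), log_ge (1 / c)] with m hCF hAlt hκm hNN hL1 hL2 hL3
  set L := Real.log m with hLd
  have hLp : 0 < L := by linarith
  have hLδ : 8 ≤ δ * L := by
    have := mul_le_mul_of_nonneg_left hL2 hδ.le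
    rwa [mul_div_cancel₀ _ hδ.ne'] at this
  have hLc : 1 ≤ c * L := by
    have := mul_le_mul_of_nonneg_left hL3 hc.le
    rwa [mul_div_cancel₀ _ hc.ne'] at this
  -- the polynomial S
  have hScoef := SS_coeff hκ hP m
  have hS0 : (SS κ P m).eval 0 = ∑ i ∈ Finset.range (2 * NN m + 1),
      wt m i * κ (m - NN m + i) := by
    rw [SS_eval]
    apply Finset.sum_congr rfl
    intro i _
    rw [hP0, mul_one]
  have hS0low : Real.exp (L * (a - c * (Real.pi ^ 2 / 4) - ε)) ≤ (SS κ P m).eval 0 := by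
    rw [hS0]
    have hmem : NN m ∈ Finset.range (2 * NN m + 1) := by
      rw [Finset.mem_range]; omega
    have h1 := Finset.single_le_sum (f := fun i => wt m i * κ (m - NN m + i))
      (fun i _ => mul_nonneg (wt_pos m i).le (hκ _).le) hmem
    refine le_trans ?_ h1
    have h2 : wt m (NN m) = 1 := by
      unfold wt
      simp
    rw [h2, one_mul, Nat.sub_add_cancel hNN, mul_comm]
    exact hκm
  have hS2 : Real.exp (L * (a - δ')) ≤ (SS κ P m).eval 2 := by
    apply hchain a L hLp _ hScoef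
    · intro b hb
      refine (hCF b hb).trans ?_
      apply Real.exp_le_exp.mpr
      apply mul_le_mul_of_nonneg_left _ hLp.le
      linarith
    · refine le_trans ?_ hS0low
      apply Real.exp_le_exp.mpr
      apply mul_le_mul_of_nonneg_left _ hLp.le
      linarith
  have hS0up : (SS κ P m).eval 0 ≤ Real.exp (L * (a - c * (Real.pi ^ 2 / 4) + ε)) := by
    have h1 := hCF ((Real.pi / 2 : ℝ) * I) (by
      rw [norm_mul, norm_I, mul_one, norm_real, Real.norm_of_nonneg (by positivity)]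
      exact hR1.le)
    have hcz : Complex.cosh ((Real.pi / 2 : ℝ) * I) = 0 := by
      rw [Complex.cosh_mul_I]
      push_cast
      exact Complex.cos_pi_div_two
    have hz2 : (((Real.pi / 2 : ℝ) * I : ℂ) ^ 2).re = -(Real.pi ^ 2 / 4) := by
      rw [mul_pow, I_sq, ← ofReal_pow, mul_neg_one, neg_re, ofReal_re]
      ring
    rw [hcz, mul_zero, hz2] at h1
    have h0 : aeval (0 : ℂ) (SS κ P m) = (((SS κ P m).eval 0 : ℝ) : ℂ) := by
      simpa using (Polynomial.aeval_algebraMap_apply ℂ (0 : ℝ) (SS κ P m))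
    rw [h0, norm_real, Real.norm_of_nonneg (eval_nonneg' hScoef le_rfl)] at h1
    refine h1.trans (le_of_eq ?_)
    congr 1
    ring
  by_contra hcon
  push Not at hcon
  -- every even number of rows has a small value
  set tm : ℕ → ℝ := fun i => wt m i * κ (m - NN m + i) * (P (m - NN m + i)).eval 2 with htm
  have hSe : (SS κ P m).eval 2 = ∑ i ∈ Finset.range (2 * NN m + 1), tm i := SS_eval m 2
  set A := ∑ i ∈ Finset.range (2 * NN m + 1), (-1 : ℝ) ^ (NN m + i) * tm i with hA
  have hAle : |A| ≤ Real.exp (L * (a + ε - 4 * c)) := hAlt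
  have hA2 : |A| ≤ (SS κ P m).eval 2 / 2 := by
    have h1 : Real.exp (L * (a + ε - 4 * c)) * 2 ≤ Real.exp (L * (a - δ')) := by
      have h2 : (2 : ℝ) ≤ Real.exp 1 := by linarith [Real.add_one_le_exp (1 : ℝ)]
      calc Real.exp (L * (a + ε - 4 * c)) * 2 ≤ Real.exp (L * (a + ε - 4 * c)) * Real.exp 1 :=
            mul_le_mul_of_nonneg_left h2 (Real.exp_pos _).le
        _ = Real.exp (L * (a + ε - 4 * c) + 1) := by rw [← Real.exp_add]
        _ ≤ _ := by
            apply Real.exp_le_exp.mpr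
            have h3 : L * (a - δ') - (L * (a + ε - 4 * c) + 1) = L * (4 * c - δ' - ε) - 1 := by ring
            have h4 : L * (2 * c) ≤ L * (4 * c - δ' - ε) :=
              mul_le_mul_of_nonneg_left (by linarith) hLp.le
            have h5 : L * (2 * c) = 2 * (c * L) := by ring
            linarith
    linarith
  have hpar : ∀ i : ℕ, (1 + (-1 : ℝ) ^ m * (-1 : ℝ) ^ (NN m + i)) * tm i ≤
      2 * (Real.exp ((c * (Real.pi ^ 2 / 4) - δ) * L) * (wt m i * κ (m - NN m + i))) ∨
      ¬ i ∈ Finset.range (2 * NN m + 1) := by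
    intro i
    by_cases hi : i ∈ Finset.range (2 * NN m + 1)
    swap
    · right; exact hi
    left
    rw [Finset.mem_range] at hi
    have hwk : 0 < wt m i * κ (m - NN m + i) := mul_pos (wt_pos _ _) (hκ _)
    rcases Nat.even_or_odd (m - NN m + i) with he | ho
    · obtain ⟨T, hT⟩ := he
      have hT' : m - NN m + i = 2 * T := by omega
      have h1 := hcon T (by omega) (by omega)
      have h2 : (-1 : ℝ) ^ m * (-1 : ℝ) ^ (NN m + i) = 1 := by
        rw [← pow_add]
        apply Even.neg_one_pow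
        refine ⟨T + NN m, ?_⟩
        omega
      rw [h2, htm]
      simp only
      rw [hT'] at hwk ⊢
      have h3 : wt m i * κ (2 * T) * eval 2 (P (2 * T)) ≤
          wt m i * κ (2 * T) * Real.exp ((c * (Real.pi ^ 2 / 4) - δ) * L) :=
        mul_le_mul_of_nonneg_left h1.le hwk.le
      linarith
    · obtain ⟨T, hT⟩ := ho
      have h2 : (-1 : ℝ) ^ m * (-1 : ℝ) ^ (NN m + i) = -1 := by
        rw [← pow_add]
        apply Odd.neg_one_pow
        refine ⟨T + NN m, ?_⟩
        omega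
      rw [h2]
      have := Real.exp_pos ((c * (Real.pi ^ 2 / 4) - δ) * L)
      have h3 : 0 < 2 * (Real.exp ((c * (Real.pi ^ 2 / 4) - δ) * L) *
        (wt m i * κ (m - NN m + i))) := by positivity
      linarith
  have hsum : (SS κ P m).eval 2 + (-1 : ℝ) ^ m * A ≤
      2 * (Real.exp ((c * (Real.pi ^ 2 / 4) - δ) * L) * (SS κ P m).eval 0) := by
    have h1 : (SS κ P m).eval 2 + (-1 : ℝ) ^ m * A = ∑ i ∈ Finset.range (2 * NN m + 1),
        (1 + (-1 : ℝ) ^ m * (-1 : ℝ) ^ (NN m + i)) * tm i := by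
      rw [hSe, hA, Finset.mul_sum, ← Finset.sum_add_distrib]
      apply Finset.sum_congr rfl
      intro i _
      ring
    rw [h1, hS0, Finset.mul_sum, Finset.mul_sum]
    apply Finset.sum_le_sum
    intro i hi
    rcases hpar i with h | h
    · exact h
    · exact absurd hi h
  have hAm : -|A| ≤ (-1 : ℝ) ^ m * A := by
    have h1 : |(-1 : ℝ) ^ m * A| = |A| := by
      rw [abs_mul, abs_pow, abs_neg, abs_one, one_pow, one_mul]
    rw [← h1]
    exact neg_abs_le _
  have hfin : Real.exp (L * (a - δ')) / 2 ≤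
      2 * (Real.exp ((c * (Real.pi ^ 2 / 4) - δ) * L) *
        Real.exp (L * (a - c * (Real.pi ^ 2 / 4) + ε))) := by
    have h1 : Real.exp ((c * (Real.pi ^ 2 / 4) - δ) * L) * (SS κ P m).eval 0 ≤
        Real.exp ((c * (Real.pi ^ 2 / 4) - δ) * L) *
        Real.exp (L * (a - c * (Real.pi ^ 2 / 4) + ε)) :=
      mul_le_mul_of_nonneg_left hS0up (Real.exp_pos _).le
    linarith
  have h4 : Real.exp (L * (a - δ')) ≤ 4 * Real.exp (L * (a - δ + ε)) := by
    rw [← Real.exp_add] at hfin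
    have : (c * (Real.pi ^ 2 / 4) - δ) * L + L * (a - c * (Real.pi ^ 2 / 4) + ε)
        = L * (a - δ + ε) := by ring
    rw [this] at hfin
    linarith
  have h5 : (4 : ℝ) < Real.exp 2 := by
    have h6 : Real.exp 2 = Real.exp 1 * Real.exp 1 := by rw [← Real.exp_add]; norm_num
    have h7 := Real.exp_one_gt_d9
    rw [h6]
    nlinarith
  have h8 : 4 * Real.exp (L * (a - δ + ε)) < Real.exp (L * (a - δ')) := by
    calc 4 * Real.exp (L * (a - δ + ε)) < Real.exp 2 * Real.exp (L * (a - δ + ε)) :=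
          mul_lt_mul_of_pos_right h5 (Real.exp_pos _)
      _ = Real.exp (2 + L * (a - δ + ε)) := by rw [← Real.exp_add]
      _ ≤ _ := by
          apply Real.exp_le_exp.mpr
          have h9 : L * (a - δ') - (2 + L * (a - δ + ε)) = L * (δ - δ' - ε) - 2 := by ring
          have h10 : L * (δ / 2) ≤ L * (δ - δ' - ε) :=
            mul_le_mul_of_nonneg_left (by linarith) hLp.le
          have h11 : L * (δ / 2) = δ * L / 2 := by ring
          linarith
  linarith

end NUI
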