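import Mathlib

open Complex Set MeasureTheory Filter Topology

namespace NUI

/-- boundary integral of the rectangle `[a,b] x [c,d]` -/
noncomputable def BI (f : ℂ → ℂ) (a b c d : ℝ) : ℂ :=
  (∫ x : ℝ in a..b, f (x + c * I)) - (∫ x : ℝ in a..b, f (x + d * I)) +
    I * (∫ y : ℝ in c..d, f (b + y * I)) - I * ∫ y : ℝ in c..d, f (a + y * I)

lemma hor_int {a b y : ℝ} (hy : y ≠ 0) :
    ∫ x : ℝ in a..b, ((x : ℂ) + y * I)⁻¹ = log (b + y * I) - log (a + y * I) := by
  have hm : ∀ x : ℝ, ((x : ℂ) + y * I) ∈ slitPlane := by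
    intro x
    rw [mem_slitPlane_iff]
    right
    simpa using hy
  have hd : ∀ x ∈ uIcc a b, HasDerivAt (fun t : ℝ => log ((t : ℂ) + y * I))
      (((x : ℂ) + y * I)⁻¹) x := by
    intro x _
    have h1 : HasDerivAt (fun t : ℝ => ((t : ℂ) + y * I)) 1 x := by
      simpa using (Complex.ofRealCLM.hasDerivAt (x := x)).add_const (y * I : ℂ)
    have h2 := h1.clog_real (hm x)
    simpa [one_div] using h2
  refine intervalIntegral.integral_eq_sub_of_hasDerivAt hd ?_
  apply ContinuousOn.intervalIntegrable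
  intro x _
  apply ContinuousAt.continuousWithinAt
  apply ContinuousAt.inv₀
  · fun_prop
  · exact slitPlane_ne_zero (hm x)

lemma ver_int_pos {x c d : ℝ} (hx : 0 < x) :
    I * ∫ y : ℝ in c..d, ((x : ℂ) + y * I)⁻¹ = log (x + d * I) - log (x + c * I) := by
  have hm : ∀ y : ℝ, ((x : ℂ) + y * I) ∈ slitPlane := by
    intro y
    rw [mem_slitPlane_iff]
    left
    simpa using hx
  rw [← intervalIntegral.integral_const_mul]
  have hd : ∀ y ∈ uIcc c d, HasDerivAt (fun t : ℝ => log ((x : ℂ) + t * I))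
      (I * ((x : ℂ) + y * I)⁻¹) y := by
    intro y _
    have h1 : HasDerivAt (fun t : ℝ => ((x : ℂ) + t * I)) I y := by
      simpa using ((Complex.ofRealCLM.hasDerivAt (x := y)).mul_const I).const_add (x : ℂ)
    have h2 := h1.clog_real (hm y)
    simpa [div_eq_mul_inv] using h2
  refine intervalIntegral.integral_eq_sub_of_hasDerivAt hd ?_
  apply ContinuousOn.intervalIntegrable
  intro y _
  apply ContinuousAt.continuousWithinAt
  apply ContinuousAt.mul continuousAt_const
  apply ContinuousAt.inv₀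
  · fun_prop
  · exact slitPlane_ne_zero (hm y)

lemma ver_int_neg {x c d : ℝ} (hx : x < 0) :
    I * ∫ y : ℝ in c..d, ((x : ℂ) + y * I)⁻¹ = log (-(x + d * I)) - log (-(x + c * I)) := by
  have hm : ∀ y : ℝ, (-((x : ℂ) + y * I)) ∈ slitPlane := by
    intro y
    rw [mem_slitPlane_iff]
    left
    simpa using hx
  rw [← intervalIntegral.integral_const_mul]
  have hd : ∀ y ∈ uIcc c d, HasDerivAt (fun t : ℝ => log (-((x : ℂ) + t * I)))
      (I * ((x : ℂ) + y * I)⁻¹) y := by
    intro y _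
    have h0 : HasDerivAt (fun t : ℝ => ((x : ℂ) + t * I)) I y := by
      simpa using ((Complex.ofRealCLM.hasDerivAt (x := y)).mul_const I).const_add (x : ℂ)
    have h1 : HasDerivAt (fun t : ℝ => (-((x : ℂ) + t * I))) (-I) y := h0.neg
    have h2 := h1.clog_real (hm y)
    have h3 : -I / -((x : ℂ) + y * I) = I * ((x : ℂ) + y * I)⁻¹ := by
      rw [neg_div_neg_eq, div_eq_mul_inv]
    rwa [h3] at h2
  refine intervalIntegral.integral_eq_sub_of_hasDerivAt hd ?_
  apply ContinuousOn.intervalIntegrable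
  intro y _
  apply ContinuousAt.continuousWithinAt
  apply ContinuousAt.mul continuousAt_const
  apply ContinuousAt.inv₀
  · fun_prop
  · have := slitPlane_ne_zero (hm y)
    exact neg_ne_zero.mp this

lemma log_sub_log_neg_pos {z : ℂ} (hz : 0 < z.im) : log z - log (-z) = Real.pi * I := by
  rw [log, log, arg_neg_eq_arg_sub_pi_of_im_pos hz, norm_neg]
  push_cast
  ring

lemma log_neg_sub_log_neg {z : ℂ} (hz : z.im < 0) : log (-z) - log z = Real.pi * I := by
  rw [log, log, arg_neg_eq_arg_add_pi_of_im_neg hz, norm_neg]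
  push_cast
  ring

lemma BI_inv {a b c d : ℝ} (ha : a < 0) (hb : 0 < b) (hc : c < 0) (hd : 0 < d) :
    BI (fun z => z⁻¹) a b c d = 2 * Real.pi * I := by
  unfold BI
  rw [hor_int hc.ne, hor_int hd.ne', ver_int_pos hb, ver_int_neg ha]
  have h1 : log ((a : ℂ) + d * I) - log (-((a : ℂ) + d * I)) = Real.pi * I :=
    log_sub_log_neg_pos (by simpa using hd)
  have h2 : log (-((a : ℂ) + c * I)) - log ((a : ℂ) + c * I) = Real.pi * I :=
    log_neg_sub_log_neg (by simpa using hc)
  linear_combination h1 + h2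

lemma BI_congr {f g : ℂ → ℂ} {a b c d : ℝ}
    (h1 : ∀ x ∈ uIcc a b, f (x + c * I) = g (x + c * I))
    (h2 : ∀ x ∈ uIcc a b, f (x + d * I) = g (x + d * I))
    (h3 : ∀ y ∈ uIcc c d, f (b + y * I) = g (b + y * I))
    (h4 : ∀ y ∈ uIcc c d, f (a + y * I) = g (a + y * I)) :
    BI f a b c d = BI g a b c d := by
  unfold BI
  rw [intervalIntegral.integral_congr h1, intervalIntegral.integral_congr h2,
    intervalIntegral.integral_congr h3, intervalIntegral.integral_congr h4]

/-- continuity at all boundary points -/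
def CB (f : ℂ → ℂ) (a b c d : ℝ) : Prop :=
  (∀ x ∈ uIcc a b, ContinuousAt f (x + c * I)) ∧ (∀ x ∈ uIcc a b, ContinuousAt f (x + d * I)) ∧
  (∀ y ∈ uIcc c d, ContinuousAt f (b + y * I)) ∧ (∀ y ∈ uIcc c d, ContinuousAt f (a + y * I))

lemma ii_hor {f : ℂ → ℂ} {a b c : ℝ} (h : ∀ x ∈ uIcc a b, ContinuousAt f (x + c * I)) :
    IntervalIntegrable (fun x : ℝ => f (x + c * I)) volume a b := by
  apply ContinuousOn.intervalIntegrable
  intro x hx
  apply ContinuousAt.continuousWithinAt
  have := h x hx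
  exact ContinuousAt.comp (g := f) (f := fun x : ℝ => ((x : ℂ) + c * I)) this (by fun_prop)

lemma ii_ver {f : ℂ → ℂ} {a c d : ℝ} (h : ∀ y ∈ uIcc c d, ContinuousAt f (a + y * I)) :
    IntervalIntegrable (fun y : ℝ => f (a + y * I)) volume c d := by
  apply ContinuousOn.intervalIntegrable
  intro x hx
  apply ContinuousAt.continuousWithinAt
  have := h x hx
  exact ContinuousAt.comp (g := f) (f := fun y : ℝ => ((a : ℂ) + y * I)) this (by fun_prop)

lemma BI_add {f g : ℂ → ℂ} {a b c d : ℝ} (hf : CB f a b c d) (hg : CB g a b c d) :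
    BI (fun z => f z + g z) a b c d = BI f a b c d + BI g a b c d := by
  obtain ⟨f1, f2, f3, f4⟩ := hf
  obtain ⟨g1, g2, g3, g4⟩ := hg
  unfold BI
  rw [intervalIntegral.integral_add (ii_hor f1) (ii_hor g1),
    intervalIntegral.integral_add (ii_hor f2) (ii_hor g2),
    intervalIntegral.integral_add (ii_ver f3) (ii_ver g3),
    intervalIntegral.integral_add (ii_ver f4) (ii_ver g4)]
  ring

lemma BI_const_mul (k : ℂ) {f : ℂ → ℂ} {a b c d : ℝ} :
    BI (fun z => k * f z) a b c d = k * BI f a b c d := by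
  unfold BI
  simp only [intervalIntegral.integral_const_mul]
  ring

lemma BI_adj {f : ℂ → ℂ} {a b e c d : ℝ}
    (h1 : IntervalIntegrable (fun x : ℝ => f (x + c * I)) volume a b)
    (h2 : IntervalIntegrable (fun x : ℝ => f (x + c * I)) volume b e)
    (h3 : IntervalIntegrable (fun x : ℝ => f (x + d * I)) volume a b)
    (h4 : IntervalIntegrable (fun x : ℝ => f (x + d * I)) volume b e) :
    BI f a b c d + BI f b e c d = BI f a e c d := by
  unfold BI
  rw [← intervalIntegral.integral_add_adjacent_intervals h1 h2,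
    ← intervalIntegral.integral_add_adjacent_intervals h3 h4]
  ring

/-- translation -/
lemma BI_sub (f : ℂ → ℂ) (p a b c d : ℝ) :
    BI (fun z => f (z - p)) a b c d = BI f (a - p) (b - p) c d := by
  unfold BI
  have e1 : ∀ c : ℝ, (∫ x : ℝ in a..b, f (x + c * I - p)) = ∫ x : ℝ in a - p..b - p, f (x + c * I) := by
    intro c
    rw [← intervalIntegral.integral_comp_sub_right (fun x : ℝ => f (x + c * I)) p]
    apply intervalIntegral.integral_congr
    intro x _
    simp only
    congr 1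
    push_cast
    ring
  have e2 : ∀ b : ℝ, (∫ y : ℝ in c..d, f (b + y * I - p)) =
      ∫ y : ℝ in c..d, f ((b - p : ℝ) + y * I) := by
    intro b
    apply intervalIntegral.integral_congr
    intro y _
    simp only
    congr 1
    push_cast
    ring
  rw [e1, e1, e2, e2]

/-- points of the closed rectangle -/
def Rc (a b c d : ℝ) : Set ℂ := {z | a ≤ z.re ∧ z.re ≤ b ∧ c ≤ z.im ∧ z.im ≤ d}

lemma BI_zero {f : ℂ → ℂ} {a b c d : ℝ} (hab : a ≤ b) (hcd : c ≤ d)
    (h : ∀ z ∈ Rc a b c d, DifferentiableAt ℂ f z) : BI f a b c d = 0 := by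
  have := Complex.integral_boundary_rect_eq_zero_of_differentiableOn f (a + c * I) (b + d * I)
    (by
      intro z hz
      refine (h z ?_).differentiableWithinAt
      rw [mem_reProdIm] at hz
      simp [uIcc_of_le hab, uIcc_of_le hcd] at hz
      exact ⟨hz.1.1, hz.1.2, hz.2.1, hz.2.2⟩)
  simpa [BI, smul_eq_mul] using this

lemma rc_bot {a b c d : ℝ} (hab : a ≤ b) (hcd : c ≤ d) {x : ℝ} (hx : x ∈ uIcc a b) :
    ((x : ℂ) + c * I) ∈ Rc a b c d := by
  rw [uIcc_of_le hab] at hx
  simp [Rc, hx.1, hx.2, hcd]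

lemma rc_top {a b c d : ℝ} (hab : a ≤ b) (hcd : c ≤ d) {x : ℝ} (hx : x ∈ uIcc a b) :
    ((x : ℂ) + d * I) ∈ Rc a b c d := by
  rw [uIcc_of_le hab] at hx
  simp [Rc, hx.1, hx.2, hcd]

lemma rc_right {a b c d : ℝ} (hab : a ≤ b) (hcd : c ≤ d) {y : ℝ} (hy : y ∈ uIcc c d) :
    ((b : ℂ) + y * I) ∈ Rc a b c d := by
  rw [uIcc_of_le hcd] at hy
  simp [Rc, hy.1, hy.2, hab]

lemma rc_left {a b c d : ℝ} (hab : a ≤ b) (hcd : c ≤ d) {y : ℝ} (hy : y ∈ uIcc c d) :
    ((a : ℂ) + y * I) ∈ Rc a b c d := by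
  rw [uIcc_of_le hcd] at hy
  simp [Rc, hy.1, hy.2, hab]

/-- Cauchy formula on a rectangle, centre `p` real -/
lemma BI_cauchy {H : ℂ → ℂ} {p a b c d : ℝ} (ha : a < p) (hb : p < b) (hc : c < 0) (hd : 0 < d)
    (h : ∀ z ∈ Rc a b c d, DifferentiableAt ℂ H z) :
    BI (fun z => H z * (z - p)⁻¹) a b c d = 2 * Real.pi * I * H p := by
  have hab : a ≤ b := (ha.trans hb).le
  have hcd : c ≤ d := (hc.trans hd).le
  have hnb : ∀ x : ℝ, ∀ y : ℝ, y ≠ 0 → ((x : ℂ) + y * I) ≠ p := by
    intro x y hy h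
    apply hy
    have := congrArg Complex.im h
    simpa using this
  have hnv : ∀ x : ℝ, x ≠ p → ∀ y : ℝ, ((x : ℂ) + y * I) ≠ p := by
    intro x hx y h
    apply hx
    have := congrArg Complex.re h
    simpa using this
  have key : ∀ z : ℂ, z ≠ p → H z * (z - p)⁻¹ = dslope H p z + H p * (z - p)⁻¹ := by
    intro z hz
    rw [dslope_of_ne _ hz, slope_def_field]
    have : z - p ≠ 0 := sub_ne_zero.mpr hz
    field_simp
    ring
  have hdsl : ∀ z ∈ Rc a b c d, DifferentiableAt ℂ (dslope H p) z := by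
    intro z hz
    by_cases hzp : z = p
    · subst hzp
      have hs : (Ioo a b ×ℂ Ioo c d) ∈ 𝓝 (p : ℂ) := by
        apply (isOpen_Ioo.reProdIm isOpen_Ioo).mem_nhds
        simp [mem_reProdIm, ha, hb, hc, hd]
      have hH : DifferentiableOn ℂ H (Ioo a b ×ℂ Ioo c d) := by
        intro w hw
        rw [mem_reProdIm] at hw
        exact (h w ⟨hw.1.1.le, hw.1.2.le, hw.2.1.le, hw.2.2.le⟩).differentiableWithinAt
      exact ((Complex.differentiableOn_dslope hs).mpr hH).differentiableAt hs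
    · exact (differentiableAt_dslope_of_ne hzp).mpr (h z hz)
  have e1 : BI (fun z => H z * (z - p)⁻¹) a b c d
      = BI (fun z => dslope H p z + H p * (z - p)⁻¹) a b c d := by
    apply BI_congr
    · intro x _; exact key _ (hnb x c hc.ne)
    · intro x _; exact key _ (hnb x d hd.ne')
    · intro y _; exact key _ (hnv b hb.ne' y)
    · intro y _; exact key _ (hnv a ha.ne y)
  have hci : ∀ z : ℂ, z ≠ p → ContinuousAt (fun z : ℂ => H p * (z - p)⁻¹) z := by
    intro z hz
    apply ContinuousAt.mul continuousAt_const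
    apply ContinuousAt.inv₀
    · fun_prop
    · exact sub_ne_zero.mpr hz
  rw [e1, BI_add, BI_zero hab hcd hdsl, BI_const_mul, BI_sub (fun z => z⁻¹),
    BI_inv (by linarith) (by linarith) hc hd]
  · ring
  · exact ⟨fun x hx => (hdsl _ (rc_bot hab hcd hx)).continuousAt,
      fun x hx => (hdsl _ (rc_top hab hcd hx)).continuousAt,
      fun x hx => (hdsl _ (rc_right hab hcd hx)).continuousAt,
      fun x hx => (hdsl _ (rc_left hab hcd hx)).continuousAt⟩
  · exact ⟨fun x _ => hci _ (hnb x c hc.ne), fun x _ => hci _ (hnb x d hd.ne'),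
      fun y _ => hci _ (hnv b hb.ne' y), fun y _ => hci _ (hnv a ha.ne y)⟩

/-- the kernel `exp (2 pi i z) - 1` -/
noncomputable def EE (z : ℂ) : ℂ := exp (2 * Real.pi * I * z) - 1

lemma EE_int (j : ℤ) : EE (j : ℂ) = 0 := by
  unfold EE
  rw [show (2 * Real.pi * I * (j : ℂ)) = (j : ℂ) * (2 * Real.pi * I) by ring,
    Complex.exp_int_mul_two_pi_mul_I, sub_self]

lemma EE_ne {z : ℂ} (h : ∀ j : ℤ, z ≠ j) : EE z ≠ 0 := by
  intro h0
  unfold EE at h0
  rw [sub_eq_zero, Complex.exp_eq_one_iff] at h0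
  obtain ⟨n, hn⟩ := h0
  apply h n
  have h2 : (2 * Real.pi * I : ℂ) ≠ 0 := two_pi_I_ne_zero
  have : 2 * Real.pi * I * z = 2 * Real.pi * I * n := by rw [hn]; ring
  exact mul_left_cancel₀ h2 this

lemma EE_diff : Differentiable ℂ EE := by
  unfold EE
  fun_prop

lemma EE_deriv (z : ℂ) : HasDerivAt EE (2 * Real.pi * I * exp (2 * Real.pi * I * z)) z := by
  have h1 : HasDerivAt (fun z : ℂ => 2 * Real.pi * I * z) (2 * Real.pi * I) z := by
    simpa using (hasDerivAt_id z).const_mul (2 * Real.pi * I : ℂ)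
  have h2 := (h1.cexp).sub_const 1
  have h3 : cexp (2 * Real.pi * I * z) * (2 * Real.pi * I)
      = 2 * Real.pi * I * exp (2 * Real.pi * I * z) := mul_comm _ _
  rw [h3] at h2
  exact h2

lemma dslope_EE_ne (j : ℤ) {z : ℂ} (hz : ∀ i : ℤ, i ≠ j → z ≠ i) : dslope EE j z ≠ 0 := by
  by_cases h : z = j
  · subst h
    rw [dslope_same, (EE_deriv _).deriv]
    exact mul_ne_zero two_pi_I_ne_zero (exp_ne_zero _)
  · rw [dslope_of_ne _ h, slope_def_field, EE_int, sub_zero]
    apply div_ne_zero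
    · apply EE_ne
      intro i hi
      by_cases hij : i = j
      · exact h (by rw [hi, hij])
      · exact hz i hij hi
    · exact sub_ne_zero.mpr h

lemma BI_col {f : ℂ → ℂ} {c d : ℝ} (j : ℤ) (hc : c < 0) (hd : 0 < d)
    (h : ∀ z ∈ Rc (j - 1 / 2) (j + 1 / 2) c d, DifferentiableAt ℂ f z) :
    BI (fun z => f z / EE z) (j - 1 / 2) (j + 1 / 2) c d = f j := by
  have hab : ((j : ℝ) - 1 / 2) ≤ j + 1 / 2 := by linarith
  have hcd : c ≤ d := (hc.trans hd).le
  have hni : ∀ z ∈ Rc ((j : ℝ) - 1 / 2) (j + 1 / 2) c d, ∀ i : ℤ, i ≠ j → z ≠ i := by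
    intro z hz i hij hzi
    obtain ⟨h1, h2, -, -⟩ := hz
    rw [hzi] at h1 h2
    simp only [intCast_re] at h1 h2
    have h3 : |(i : ℝ) - j| < 1 := by
      rw [abs_lt]; constructor <;> linarith
    have h4 : |i - j| < 1 := by exact_mod_cast h3
    rw [Int.abs_lt_one_iff] at h4
    exact hij (by omega)
  have hH : ∀ z ∈ Rc ((j : ℝ) - 1 / 2) (j + 1 / 2) c d,
      DifferentiableAt ℂ (fun z => f z / dslope EE j z) z := by
    intro z hz
    apply (h z hz).div
    · have : Differentiable ℂ (dslope EE j) := by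
        intro w
        have := (Complex.differentiableOn_dslope (s := univ) (c := (j : ℂ)) (f := EE)
          univ_mem).mpr EE_diff.differentiableOn
        exact this.differentiableAt univ_mem
      exact this z
    · exact dslope_EE_ne j (hni z hz)
  have hk : ∀ z : ℂ, z ≠ ((j : ℝ) : ℂ) → f z / EE z = (f z / dslope EE j z) * (z - (j : ℝ))⁻¹ := by
    intro z hz
    have hz' : z ≠ (j : ℂ) := by simpa using hz
    rw [dslope_of_ne _ hz', slope_def_field, EE_int, sub_zero]
    have h3 : z - (j : ℂ) ≠ 0 := sub_ne_zero.mpr hz'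
    have h4 : ((j : ℝ) : ℂ) = (j : ℂ) := by simp
    rw [h4]
    by_cases hE : EE z = 0
    · rw [hE]; simp
    · field_simp
  have hnb : ∀ x : ℝ, ∀ y : ℝ, y ≠ 0 → ((x : ℂ) + y * I) ≠ ((j : ℝ) : ℂ) := by
    intro x y hy h
    apply hy
    have := congrArg Complex.im h
    simpa using this
  have hnv : ∀ x : ℝ, x ≠ j → ∀ y : ℝ, ((x : ℂ) + y * I) ≠ ((j : ℝ) : ℂ) := by
    intro x hx y h
    apply hx
    have := congrArg Complex.re h
    simpa using this
  have e1 : BI (fun z => f z / EE z) (j - 1 / 2) (j + 1 / 2) c d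
      = BI (fun z => (f z / dslope EE j z) * (z - (j : ℝ))⁻¹) (j - 1 / 2) (j + 1 / 2) c d := by
    apply BI_congr
    · intro x _; exact hk _ (hnb x c hc.ne)
    · intro x _; exact hk _ (hnb x d hd.ne')
    · intro y _; exact hk _ (hnv _ (by linarith) y)
    · intro y _; exact hk _ (hnv _ (by linarith) y)
  rw [e1, BI_cauchy (by linarith) (by linarith) hc hd hH]
  simp only [ofReal_intCast]
  rw [dslope_same, (EE_deriv _).deriv]
  have : exp (2 * Real.pi * I * (j : ℂ)) = 1 := by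
    rw [show (2 * Real.pi * I * (j : ℂ)) = (j : ℂ) * (2 * Real.pi * I) by ring,
      Complex.exp_int_mul_two_pi_mul_I]
  rw [this]
  have h2 : (2 * Real.pi * I : ℂ) ≠ 0 := two_pi_I_ne_zero
  field_simp

end NUI
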