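import Pool.Agent.NUI.Rect

open Complex Set MeasureTheory Filter Topology

namespace NUI

lemma cont_hor {f : ℂ → ℂ} {y : ℝ} (hy : y ≠ 0) {a b : ℝ}
    (h : ∀ x ∈ uIcc a b, DifferentiableAt ℂ f (x + y * I)) :
    IntervalIntegrable (fun x : ℝ => (fun z => f z / EE z) (x + y * I)) volume a b := by
  apply ii_hor (f := fun z => f z / EE z) (c := y)
  intro x hx
  apply (h x hx).continuousAt.div EE_diff.continuous.continuousAt
  apply EE_ne
  intro j hj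
  apply hy
  have := congrArg Complex.im hj
  simpa using this

lemma sum_cols {f : ℂ → ℂ} {c d : ℝ} (a0 : ℤ) (hc : c < 0) (hd : 0 < d) :
    ∀ n : ℕ, (∀ z ∈ Rc (a0 - 1 / 2) (a0 + n - 1 / 2) c d, DifferentiableAt ℂ f z) →
    ∑ i ∈ Finset.range n, f ((a0 + i : ℤ) : ℂ)
      = BI (fun z => f z / EE z) (a0 - 1 / 2) (a0 + n - 1 / 2) c d := by
  have hcd : c ≤ d := (hc.trans hd).le
  intro n
  induction n with
  | zero =>
    intro _
    simp [BI]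
  | succ n ih =>
    intro h
    have h1 : ∀ z ∈ Rc (a0 - 1 / 2) (a0 + n - 1 / 2) c d, DifferentiableAt ℂ f z := by
      intro z hz
      apply h
      obtain ⟨h1, h2, h3, h4⟩ := hz
      refine ⟨h1, ?_, h3, h4⟩
      push_cast
      linarith
    rw [Finset.sum_range_succ, ih h1]
    have e1 : ((a0 : ℝ) + n - 1 / 2) = (((a0 + n : ℤ) : ℝ) - 1 / 2) := by push_cast; ring
    have e2 : ((a0 : ℝ) + ((n + 1 : ℕ) : ℝ) - 1 / 2) = (((a0 + n : ℤ) : ℝ) + 1 / 2) := by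
      push_cast; ring
    have hcol : ∀ z ∈ Rc (((a0 + n : ℤ) : ℝ) - 1 / 2) (((a0 + n : ℤ) : ℝ) + 1 / 2) c d,
        DifferentiableAt ℂ f z := by
      intro z hz
      apply h
      rw [← e1, ← e2] at hz
      obtain ⟨h1, h2, h3, h4⟩ := hz
      refine ⟨?_, h2, h3, h4⟩
      have : (0 : ℝ) ≤ n := Nat.cast_nonneg n
      linarith
    have e3 := BI_col (f := f) (a0 + n : ℤ) hc hd hcol
    rw [e1, e2, ← e3]
    have hle1 : ((a0 : ℝ) - 1 / 2) ≤ (((a0 + n : ℤ) : ℝ) - 1 / 2) := by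
      have : (0 : ℝ) ≤ n := Nat.cast_nonneg n
      push_cast; linarith
    have hle2 : (((a0 + n : ℤ) : ℝ) - 1 / 2) ≤ (((a0 + n : ℤ) : ℝ) + 1 / 2) := by linarith
    have h1' : ∀ z ∈ Rc (a0 - 1 / 2) (((a0 + n : ℤ) : ℝ) - 1 / 2) c d, DifferentiableAt ℂ f z := by
      rw [← e1]; exact h1
    apply BI_adj
    · exact cont_hor hc.ne (fun x hx => h1' _ (rc_bot hle1 hcd hx))
    · exact cont_hor hc.ne (fun x hx => hcol _ (rc_bot hle2 hcd hx))
    · exact cont_hor hd.ne' (fun x hx => h1' _ (rc_top hle1 hcd hx))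
    · exact cont_hor hd.ne' (fun x hx => hcol _ (rc_top hle2 hcd hx))

theorem sum_eq {f : ℂ → ℂ} {c d : ℝ} (N : ℕ) (hc : c < 0) (hd : 0 < d)
    (h : ∀ z ∈ Rc (-(N + 1 / 2)) (N + 1 / 2) c d, DifferentiableAt ℂ f z) :
    ∑ i ∈ Finset.range (2 * N + 1), f ((-(N : ℤ) + i : ℤ) : ℂ)
      = BI (fun z => f z / EE z) (-(N + 1 / 2)) (N + 1 / 2) c d := by
  have e1 : (((-(N : ℤ) : ℤ) : ℝ) - 1 / 2) = (-(N + 1 / 2) : ℝ) := by push_cast; ring
  have e2 : (((-(N : ℤ) : ℤ) : ℝ) + ((2 * N + 1 : ℕ) : ℝ) - 1 / 2) = (N + 1 / 2 : ℝ) := by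
    push_cast; ring
  have := sum_cols (f := f) (-(N : ℤ)) hc hd (2 * N + 1) (by rw [e1, e2]; exact h)
  rw [e1, e2] at this
  exact this

lemma EE_norm_bot {x s : ℝ} (hs : 1 ≤ s) :
    Real.exp (2 * Real.pi * s) / 2 ≤ ‖EE ((x : ℂ) + (-s : ℝ) * I)‖ := by
  unfold EE
  have h1 : ‖exp (2 * Real.pi * I * ((x : ℂ) + (-s : ℝ) * I))‖ = Real.exp (2 * Real.pi * s) := by
    rw [norm_exp]
    congr 1
    simp
  have h2 : (2 : ℝ) ≤ Real.exp (2 * Real.pi * s) := by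
    have h3 : (2 : ℝ) ≤ 2 * Real.pi * s + 1 := by
      nlinarith [Real.pi_gt_three]
    linarith [Real.add_one_le_exp (2 * Real.pi * s)]
  calc Real.exp (2 * Real.pi * s) / 2 ≤ Real.exp (2 * Real.pi * s) - 1 := by linarith
    _ = ‖exp (2 * Real.pi * I * ((x : ℂ) + (-s : ℝ) * I))‖ - ‖(1 : ℂ)‖ := by rw [h1]; simp
    _ ≤ _ := norm_sub_norm_le _ _

lemma EE_norm_top {x s : ℝ} (hs : 1 ≤ s) :
    1 / 2 ≤ ‖EE ((x : ℂ) + (s : ℝ) * I)‖ := by
  unfold EE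
  have h1 : ‖exp (2 * Real.pi * I * ((x : ℂ) + (s : ℝ) * I))‖ = Real.exp (-(2 * Real.pi * s)) := by
    rw [norm_exp]
    congr 1
    simp
  have h2 : Real.exp (-(2 * Real.pi * s)) ≤ 1 / 2 := by
    have h3 : (2 : ℝ) ≤ 2 * Real.pi * s + 1 := by
      nlinarith [Real.pi_gt_three]
    have h4 : (2 : ℝ) ≤ Real.exp (2 * Real.pi * s) := by
      linarith [Real.add_one_le_exp (2 * Real.pi * s)]
    rw [Real.exp_neg]
    rw [inv_eq_one_div]
    apply one_div_le_one_div_of_le (by norm_num) h4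
  have h5 := norm_sub_norm_le (1 : ℂ) (exp (2 * Real.pi * I * ((x : ℂ) + (s : ℝ) * I)))
  rw [norm_sub_rev, h1, norm_one] at h5
  linarith

lemma EE_norm_side {N : ℕ} {y : ℝ} (e : ℝ) (he : e = 1 ∨ e = -1) :
    1 ≤ ‖EE (((e * (N + 1 / 2) : ℝ) : ℂ) + (y : ℝ) * I)‖ := by
  unfold EE
  have h1 : exp (2 * Real.pi * I * (((e * (N + 1 / 2) : ℝ) : ℂ) + (y : ℝ) * I))
      = -(Real.exp (-(2 * Real.pi * y)) : ℂ) := by
    have : 2 * Real.pi * I * (((e * (N + 1 / 2) : ℝ) : ℂ) + (y : ℝ) * I)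
        = (e * N : ℝ) * (2 * Real.pi * I) + (e : ℂ) * (Real.pi * I) + (-(2 * Real.pi * y) : ℝ) := by
      push_cast
      linear_combination (2 * Real.pi * y) * I_mul_I
    rw [this, Complex.exp_add, Complex.exp_add]
    rcases he with he | he
    · subst he
      have h2 : (((1 : ℝ) * N : ℝ) : ℂ) * (2 * Real.pi * I) = ((N : ℤ) : ℂ) * (2 * Real.pi * I) := by
        push_cast; ring
      rw [h2, Complex.exp_int_mul_two_pi_mul_I]
      simp [Complex.exp_pi_mul_I]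
    · subst he
      have h2 : (((-1 : ℝ) * N : ℝ) : ℂ) * (2 * Real.pi * I)
          = ((-(N : ℤ) : ℤ) : ℂ) * (2 * Real.pi * I) := by
        push_cast; ring
      rw [h2, Complex.exp_int_mul_two_pi_mul_I]
      have h3 : exp (((-1 : ℝ) : ℂ) * (Real.pi * I)) = -1 := by
        have : ((-1 : ℝ) : ℂ) * (Real.pi * I) = -(Real.pi * I) := by push_cast; ring
        rw [this, Complex.exp_neg, Complex.exp_pi_mul_I]
        norm_num
      rw [h3]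
      simp
  rw [h1]
  have h2 : -(Real.exp (-(2 * Real.pi * y)) : ℂ) - 1
      = -((Real.exp (-(2 * Real.pi * y)) + 1 : ℝ) : ℂ) := by push_cast; ring
  rw [h2, norm_neg, norm_real]
  have := Real.exp_pos (-(2 * Real.pi * y))
  rw [Real.norm_of_nonneg (by linarith)]
  linarith

theorem sum_bound {f : ℂ → ℂ} {s σ : ℝ} (N : ℕ) (hs : 1 ≤ s) (hσ : 1 ≤ σ)
    (h : ∀ z ∈ Rc (-(N + 1 / 2)) (N + 1 / 2) (-s) σ, DifferentiableAt ℂ f z) {Bb Bt Bs : ℝ}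
    (hb : ∀ x : ℝ, |x| ≤ N + 1 / 2 → ‖f (x + (-s : ℝ) * I)‖ ≤ Bb)
    (ht : ∀ x : ℝ, |x| ≤ N + 1 / 2 → ‖f (x + (σ : ℝ) * I)‖ ≤ Bt)
    (hv : ∀ e : ℝ, (e = 1 ∨ e = -1) → ∀ y : ℝ, -s ≤ y → y ≤ σ →
      ‖f (((e * (N + 1 / 2) : ℝ) : ℂ) + (y : ℝ) * I)‖ ≤ Bs) :
    ‖∑ i ∈ Finset.range (2 * N + 1), f ((-(N : ℤ) + i : ℤ) : ℂ)‖
      ≤ (2 * N + 1) * (2 * Real.exp (-(2 * Real.pi * s)) * Bb + 2 * Bt) + 2 * (s + σ) * Bs := by
  have hN : (0 : ℝ) ≤ N := Nat.cast_nonneg N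
  have hBb : 0 ≤ Bb := (norm_nonneg _).trans (hb 0 (by simp; linarith))
  have hBt : 0 ≤ Bt := (norm_nonneg _).trans (ht 0 (by simp; linarith))
  have hBs : 0 ≤ Bs := (norm_nonneg _).trans (hv 1 (Or.inl rfl) 1 (by linarith) hσ)
  rw [sum_eq N (by linarith : -s < 0) (by linarith : 0 < σ) h]
  have hlen : |((N : ℝ) + 1 / 2) - (-(N + 1 / 2))| = 2 * N + 1 := by
    rw [abs_of_nonneg (by linarith)]; ring
  have hin : ∀ x : ℝ, x ∈ Set.uIoc (-((N : ℝ) + 1 / 2)) (N + 1 / 2) → |x| ≤ N + 1 / 2 := by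
    intro x hx
    rw [uIoc_of_le (by linarith)] at hx
    rw [abs_le]; exact ⟨hx.1.le, hx.2⟩
  have b1 : ‖∫ x : ℝ in (-((N : ℝ) + 1 / 2))..(N + 1 / 2),
      (fun z => f z / EE z) (x + (-s : ℝ) * I)‖ ≤ (2 * Real.exp (-(2 * Real.pi * s)) * Bb) * (2 * N + 1) := by
    rw [← hlen]
    apply intervalIntegral.norm_integral_le_of_norm_le_const
    intro x hx
    simp only [norm_div]
    have h1 := EE_norm_bot (x := x) hs
    have h2 := hb x (hin x hx)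
    have h3 : 0 < Real.exp (2 * Real.pi * s) / 2 := by positivity
    calc ‖f (x + (-s : ℝ) * I)‖ / ‖EE (x + (-s : ℝ) * I)‖ ≤ Bb / (Real.exp (2 * Real.pi * s) / 2) :=
          div_le_div₀ hBb h2 h3 h1
      _ = 2 * Real.exp (-(2 * Real.pi * s)) * Bb := by
        rw [Real.exp_neg]; field_simp
  have b2 : ‖∫ x : ℝ in (-((N : ℝ) + 1 / 2))..(N + 1 / 2),
      (fun z => f z / EE z) (x + (σ : ℝ) * I)‖ ≤ (2 * Bt) * (2 * N + 1) := by
    rw [← hlen]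
    apply intervalIntegral.norm_integral_le_of_norm_le_const
    intro x hx
    simp only [norm_div]
    have h1 := EE_norm_top (x := x) hσ
    have h2 := ht x (hin x hx)
    calc ‖f (x + (σ : ℝ) * I)‖ / ‖EE (x + (σ : ℝ) * I)‖ ≤ Bt / (1 / 2) :=
          div_le_div₀ hBt h2 (by norm_num) h1
      _ = 2 * Bt := by ring
  have hin2 : ∀ y : ℝ, y ∈ Set.uIoc (-s) σ → -s ≤ y ∧ y ≤ σ := by
    intro y hy
    rw [uIoc_of_le (by linarith)] at hy
    exact ⟨hy.1.le, hy.2⟩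
  have hlen2 : |σ - (-s)| = s + σ := by rw [abs_of_nonneg (by linarith)]; ring
  have b3 : ‖∫ y : ℝ in (-s)..σ, (fun z => f z / EE z) (((N : ℝ) + 1 / 2 : ℝ) + y * I)‖
      ≤ Bs * (s + σ) := by
    rw [← hlen2]
    apply intervalIntegral.norm_integral_le_of_norm_le_const
    intro y hy
    obtain ⟨h1, h2⟩ := hin2 y hy
    simp only [norm_div]
    have h3 := EE_norm_side (N := N) (y := y) 1 (Or.inl rfl)
    have h4 := hv 1 (Or.inl rfl) y h1 h2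
    rw [one_mul] at h3 h4
    calc _ ≤ Bs / 1 := div_le_div₀ hBs h4 (by norm_num) h3
      _ = Bs := by ring
  have b4 : ‖∫ y : ℝ in (-s)..σ, (fun z => f z / EE z) ((-((N : ℝ) + 1 / 2) : ℝ) + y * I)‖
      ≤ Bs * (s + σ) := by
    rw [← hlen2]
    apply intervalIntegral.norm_integral_le_of_norm_le_const
    intro y hy
    obtain ⟨h1, h2⟩ := hin2 y hy
    simp only [norm_div]
    have h3 := EE_norm_side (N := N) (y := y) (-1) (Or.inr rfl)
    have h4 := hv (-1) (Or.inr rfl) y h1 h2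
    rw [neg_one_mul] at h3 h4
    calc _ ≤ Bs / 1 := div_le_div₀ hBs h4 (by norm_num) h3
      _ = Bs := by ring
  unfold BI
  calc _ ≤ ‖_‖ + ‖_‖ := norm_sub_le _ _
    _ ≤ (‖_‖ + ‖_‖) + ‖_‖ := by gcongr; exact norm_add_le _ _
    _ ≤ ((‖_‖ + ‖_‖) + ‖_‖) + ‖_‖ := by gcongr; exact norm_sub_le _ _
    _ ≤ ((2 * Real.exp (-(2 * Real.pi * s)) * Bb) * (2 * N + 1) + (2 * Bt) * (2 * N + 1)
        + Bs * (s + σ)) + Bs * (s + σ) := by
      gcongr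
      · rw [norm_mul, norm_I, one_mul]; exact b3
      · rw [norm_mul, norm_I, one_mul]; exact b4
    _ = _ := by ring

end NUI
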